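import Pool.Agent.H771R3.EN.Defs

/-!
# Short arcs contain few of the points `e^n` (task ARC)
-/

namespace Pool.Agent.H771R3.EN

open Finset

theorem arc_cover (P : ℕ → Prop) [DecidablePred P] (N a W : ℕ) (hW : 1 ≤ W) (B : ℝ) (hB0 : 0 ≤ B)
    (hB : ∀ i, a + i * W ≤ N → (((range W).filter (fun j => P (a + i * W + j))).card : ℝ) ≤ B) :
    (((Icc 1 N).filter P).card : ℝ) ≤ a + ((N / W + 1 : ℕ) : ℝ) * B := by
  have hsub : (Icc 1 N).filter P ⊆ range a ∪ ((range (N / W + 1)).filter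
      (fun i => a + i * W ≤ N)).biUnion
      (fun i => ((range W).filter (fun j => P (a + i * W + j))).image (fun j => a + i * W + j)) := by
    intro n hn
    rw [mem_filter, mem_Icc] at hn
    rw [mem_union, mem_range, mem_biUnion]
    rcases lt_or_ge n a with h | h
    · exact Or.inl h
    · right
      have e : a + (n - a) / W * W + (n - a) % W = n := by
        have := Nat.div_add_mod (n - a) W
        have h2 : (n - a) / W * W = W * ((n - a) / W) := Nat.mul_comm _ _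
        omega
      refine ⟨(n - a) / W, ?_, ?_⟩
      · rw [mem_filter, mem_range]
        refine ⟨Nat.lt_succ_of_le (Nat.div_le_div_right (by omega)), by omega⟩
      · rw [mem_image]
        refine ⟨(n - a) % W, ?_, e⟩
        rw [mem_filter, mem_range, e]
        exact ⟨Nat.mod_lt _ hW, hn.2⟩
  have h1 : ((Icc 1 N).filter P).card ≤ a + ∑ i ∈ (range (N / W + 1)).filter
      (fun i => a + i * W ≤ N), ((range W).filter (fun j => P (a + i * W + j))).card := by
    refine (card_le_card hsub).trans ((card_union_le _ _).trans ?_)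
    rw [card_range]
    refine Nat.add_le_add_left (card_biUnion_le.trans (sum_le_sum fun i _ => card_image_le)) _
  calc (((Icc 1 N).filter P).card : ℝ) ≤ ((a + ∑ i ∈ (range (N / W + 1)).filter
      (fun i => a + i * W ≤ N), ((range W).filter (fun j => P (a + i * W + j))).card : ℕ) : ℝ) := by
        exact_mod_cast h1
    _ = a + ∑ i ∈ (range (N / W + 1)).filter (fun i => a + i * W ≤ N),
      (((range W).filter (fun j => P (a + i * W + j))).card : ℝ) := by push_cast; rfl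
    _ ≤ a + ∑ i ∈ (range (N / W + 1)).filter (fun i => a + i * W ≤ N), B := by
        gcongr with i hi
        exact hB i (mem_filter.1 hi).2
    _ ≤ _ := by
        rw [sum_const, nsmul_eq_mul]
        have h2 := card_filter_le (range (N / W + 1)) (fun i => a + i * W ≤ N)
        rw [card_range] at h2
        have h3 : ((((range (N / W + 1)).filter (fun i => a + i * W ≤ N)).card : ℕ) : ℝ) ≤
            ((N / W + 1 : ℕ) : ℝ) := by exact_mod_cast h2
        gcongr

theorem arc_quad (b t W : ℕ) (h : b * (b - 1) ≤ 2 * t * W) :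
    (b : ℝ) ≤ Real.sqrt (2 * t * W) + 1 := by
  rcases Nat.eq_zero_or_pos b with rfl | hb
  · simp
    positivity
  · have h1 : ((b : ℝ) - 1) ^ 2 ≤ 2 * t * W := by
      have h2 : ((b * (b - 1) : ℕ) : ℝ) ≤ ((2 * t * W : ℕ) : ℝ) := by exact_mod_cast h
      push_cast [Nat.cast_sub hb] at h2
      have h3 : (1 : ℝ) ≤ b := by exact_mod_cast hb
      nlinarith
    have h4 := Real.le_sqrt_of_sq_le h1
    linarith

/-- the trivial cases -/
theorem arc_triv (A δ : ℝ) (N : ℕ) (hδ : 0 < δ) (hδ1 : δ ≤ 1) (hN : 1 ≤ N) (hA : 0 ≤ A)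
    (h : (N : ℝ) ^ (δ ^ 2 / 400) ≤ A) : (N : ℝ) ≤ A / δ * (N : ℝ) ^ (1 - δ ^ 2 / 400) := by
  have hN0 : (0 : ℝ) < N := by exact_mod_cast hN
  have h1 : (N : ℝ) ^ (δ ^ 2 / 400) * (N : ℝ) ^ (1 - δ ^ 2 / 400) = N := by
    rw [← Real.rpow_add hN0]
    simp
  have h2 : A ≤ A / δ := by
    rw [le_div_iff₀ hδ]
    nlinarith
  calc (N : ℝ) = (N : ℝ) ^ (δ ^ 2 / 400) * (N : ℝ) ^ (1 - δ ^ 2 / 400) := h1.symm
    _ ≤ A / δ * (N : ℝ) ^ (1 - δ ^ 2 / 400) :=
      mul_le_mul_of_nonneg_right (h.trans h2) (Real.rpow_nonneg hN0.le _)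

theorem arc_log (δ : ℝ) (N : ℕ) (hδ : 0 < δ) (hN : 3 ≤ N)
    (h : δ * Real.log N < 128 * Real.log (Real.log N)) :
    (N : ℝ) ^ (δ ^ 2 / 400) ≤ Real.exp 164 := by
  have hN0 : (0 : ℝ) < N := by
    have : 0 < N := by omega
    exact_mod_cast this
  have hl : 1 ≤ Real.log N := by
    have h3 : (3 : ℝ) ≤ N := by exact_mod_cast hN
    rw [Real.le_log_iff_exp_le hN0]
    have := Real.exp_one_lt_d9
    linarith
  set l := Real.log N with hld
  have hs : 1 ≤ Real.sqrt l := Real.one_le_sqrt.2 hl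
  have h1 : Real.log l ≤ 2 * Real.sqrt l := by
    have h2 : Real.log l = 2 * Real.log (Real.sqrt l) := by
      rw [Real.log_sqrt (by linarith)]
      ring
    have h3 := Real.log_le_sub_one_of_pos (show 0 < Real.sqrt l by linarith)
    rw [h2]
    linarith
  have h4 : δ * l ≤ 256 * Real.sqrt l := by linarith
  have h5 : Real.sqrt l * Real.sqrt l = l := Real.mul_self_sqrt (by linarith)
  have h6 : δ * Real.sqrt l ≤ 256 := by
    have h7 : (δ * Real.sqrt l) * Real.sqrt l ≤ 256 * Real.sqrt l := by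
      rw [mul_assoc, h5]
      exact h4
    exact le_of_mul_le_mul_right h7 (by linarith)
  have h8 : δ ^ 2 * l ≤ 65536 := by
    have h9 : δ ^ 2 * l = (δ * Real.sqrt l) ^ 2 := by
      rw [mul_pow, Real.sq_sqrt (by linarith)]
    rw [h9]
    have : 0 ≤ δ * Real.sqrt l := by positivity
    nlinarith
  rw [Real.rpow_def_of_pos hN0]
  apply Real.exp_le_exp.2
  rw [← hld]
  have : l * (δ ^ 2 / 400) = δ ^ 2 * l / 400 := by ring
  rw [this]
  linarith

/-- the main case -/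
theorem arc_main (n1 : ℕ) (h : ∀ (n W : ℕ) (δ θ : ℝ), n1 ≤ n → 0 < δ → δ ≤ 1 →
    64 * Real.log (Real.log n) ≤ δ * Real.log n → 1 ≤ W →
    16 * ((⌈4 / δ⌉₊ : ℝ) + 1) * Real.log W ≤ δ * Real.log n →
    ∀ P : ℕ → Prop, ∀ _ : DecidablePred P, (∀ m : ℕ, P m ↔ Near θ (Real.exp (-(δ * (m : ℝ)))) (Real.exp (m : ℝ))) →
    ((range W).filter (fun j : ℕ => P (n + j))).card *
      (((range W).filter (fun j : ℕ => P (n + j))).card - 1) ≤ 2 * ⌈4 / δ⌉₊ * W)
    (δ θ : ℝ) (N : ℕ) (hδ : 0 < δ) (hδ1 : δ ≤ 1) (hN : 3 ≤ N) (hNn : n1 ^ 2 ≤ N)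
    (hl : 128 * Real.log (Real.log N) ≤ δ * Real.log N)
    (P : ℕ → Prop) [hP : DecidablePred P]
    (hPN : ∀ m : ℕ, P m ↔ Near θ (Real.exp (-(δ * (m : ℝ)))) (Real.exp (m : ℝ))) :
    (((Icc 1 N).filter P).card : ℝ) ≤ 50 / δ * (N : ℝ) ^ (1 - δ ^ 2 / 400) := by
  have hN0 : (0 : ℝ) < N := by
    have : 0 < N := by omega
    exact_mod_cast this
  have hN1 : (1 : ℝ) ≤ N := by
    have : 1 ≤ N := by omega
    exact_mod_cast this
  have hl1 : 1 ≤ Real.log N := by
    have h3 : (3 : ℝ) ≤ N := by exact_mod_cast hN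
    rw [Real.le_log_iff_exp_le hN0]
    have := Real.exp_one_lt_d9
    linarith
  obtain ⟨t, ht⟩ : ∃ t, t = ⌈4 / δ⌉₊ := ⟨_, rfl⟩
  have h4δ : 4 ≤ 4 / δ := by
    rw [le_div_iff₀ hδ]
    nlinarith
  have h1δ : 1 ≤ 1 / δ := by
    rw [le_div_iff₀ hδ]
    linarith
  have ht1 : 4 / δ ≤ t := by rw [ht]; exact Nat.le_ceil _
  have ht2 : (t : ℝ) < 4 / δ + 1 := by rw [ht]; exact Nat.ceil_lt_add_one (by positivity)
  have ht4 : (4 : ℝ) ≤ t := h4δ.trans ht1
  have ht5 : (t : ℝ) ≤ 5 / δ := by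
    have : 5 / δ = 4 / δ + 1 / δ := by ring
    linarith
  have ht6 : (t : ℝ) + 1 ≤ 6 / δ := by
    have : 6 / δ = 5 / δ + 1 / δ := by ring
    linarith
  set kap : ℝ := δ / (16 * ((t : ℝ) + 1)) with hkap
  have hkap0 : 0 < kap := by positivity
  have hkap1 : kap ≤ 1 := by
    rw [hkap, div_le_one (by positivity)]
    linarith
  have hkap2 : δ ^ 2 / 400 ≤ kap / 4 := by
    rw [hkap, div_div, div_le_div_iff₀ (by norm_num) (by positivity)]
    have h5 : ((t : ℝ) + 1) * δ ≤ 6 := by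
      rw [le_div_iff₀ hδ] at ht6
      exact ht6
    nlinarith
  set x : ℝ := (N : ℝ) ^ (kap / 2) with hx
  have hx1 : 1 ≤ x := Real.one_le_rpow hN1 (by positivity)
  obtain ⟨W, hWd⟩ : ∃ W, W = ⌊x⌋₊ := ⟨_, rfl⟩
  have hW1 : 1 ≤ W := by rw [hWd]; exact Nat.le_floor (by exact_mod_cast hx1)
  have hWx : (W : ℝ) ≤ x := by rw [hWd]; exact Nat.floor_le (by linarith)
  have hxW : x ≤ 2 * W := by
    have h5 : x < W + 1 := by rw [hWd]; exact Nat.lt_floor_add_one x
    have h6 : (1 : ℝ) ≤ W := by exact_mod_cast hW1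
    linarith
  have hW0 : (0 : ℝ) < W := by
    have h6 : (1 : ℝ) ≤ W := by exact_mod_cast hW1
    linarith
  have hlogW : Real.log W ≤ kap / 2 * Real.log N := by
    rw [← Real.log_rpow hN0]
    exact Real.log_le_log hW0 hWx
  obtain ⟨a, ha⟩ : ∃ a, a = ⌈Real.sqrt N⌉₊ := ⟨_, rfl⟩
  have ha1 : Real.sqrt N ≤ a := by rw [ha]; exact Nat.le_ceil _
  have ha2 : (a : ℝ) ≤ Real.sqrt N + 1 := by rw [ha]; exact (Nat.ceil_lt_add_one (Real.sqrt_nonneg _)).le
  have hsq1 : 1 ≤ Real.sqrt N := Real.one_le_sqrt.2 hN1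
  have hn1a : n1 ≤ a := by
    have h5 : (n1 : ℝ) ≤ Real.sqrt N := by
      apply Real.le_sqrt_of_sq_le
      exact_mod_cast hNn
    exact_mod_cast h5.trans ha1
  have hWN : (W : ℝ) ≤ N := hWx.trans (by
    calc x ≤ (N : ℝ) ^ (1 : ℝ) := Real.rpow_le_rpow_of_exponent_le hN1 (by linarith)
      _ = N := Real.rpow_one _)
  have hwin : ∀ i, a + i * W ≤ N → (((range W).filter (fun j => P (a + i * W + j))).card : ℝ) ≤
      Real.sqrt (2 * t * W) + 1 := by
    intro i hi
    have hnN : ((a + i * W : ℕ) : ℝ) ≤ N := by exact_mod_cast hi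
    have hna : Real.sqrt N ≤ ((a + i * W : ℕ) : ℝ) := by
      refine ha1.trans ?_
      exact_mod_cast Nat.le_add_right a (i * W)
    have hn0 : (0 : ℝ) < ((a + i * W : ℕ) : ℝ) := by linarith
    have hlog1 : Real.log N / 2 ≤ Real.log ((a + i * W : ℕ) : ℝ) := by
      rw [← Real.log_sqrt hN0.le]
      exact Real.log_le_log (by linarith) hna
    have hlog2 : Real.log ((a + i * W : ℕ) : ℝ) ≤ Real.log N := Real.log_le_log hn0 hnN
    have hlog3 : Real.log (Real.log ((a + i * W : ℕ) : ℝ)) ≤ Real.log (Real.log N) :=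
      Real.log_le_log (by linarith) hlog2
    have hlog4 : δ * (Real.log N / 2) ≤ δ * Real.log ((a + i * W : ℕ) : ℝ) :=
      mul_le_mul_of_nonneg_left hlog1 hδ.le
    refine arc_quad _ _ _ ?_
    rw [ht]
    refine h (a + i * W) W δ θ (by omega) hδ hδ1 ?_ hW1 ?_ P hP hPN
    · linarith
    · rw [← ht]
      have h5 : 16 * ((t : ℝ) + 1) * (kap / 2 * Real.log N) = δ * (Real.log N / 2) := by
        rw [hkap]
        field_simp
      calc 16 * ((t : ℝ) + 1) * Real.log W ≤ 16 * ((t : ℝ) + 1) * (kap / 2 * Real.log N) := by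
            gcongr
        _ ≤ _ := by rw [h5]; exact hlog4
  have hcov := arc_cover P N a W hW1 _ (by positivity) hwin
  set y : ℝ := (N : ℝ) ^ (kap / 4) with hy
  have hy1 : 1 ≤ y := Real.one_le_rpow hN1 (by positivity)
  have hyx : y ^ 2 = x := by
    rw [hy, hx, ← Real.rpow_natCast, ← Real.rpow_mul hN0.le]
    congr 1
    push_cast
    ring
  have ht0 : (0 : ℝ) ≤ t := by linarith
  have hsy : Real.sqrt (2 * t * W) * y ≤ 2 * t * W := by
    have h5 : (Real.sqrt (2 * t * W) * y) ^ 2 ≤ (2 * t * W) ^ 2 := by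
      rw [mul_pow, Real.sq_sqrt (by positivity), hyx]
      have h6 : 2 * (t : ℝ) * W * x ≤ 2 * t * W * (2 * W) := by gcongr
      have h7 : 2 * (t : ℝ) * W * (2 * W) ≤ (2 * t * W) ^ 2 := by
        have h8 : (2 * (t : ℝ) * W) ^ 2 = 2 * t * W * (2 * W) * t := by ring
        rw [h8]
        have h9 : 0 ≤ 2 * (t : ℝ) * W * (2 * W) := by positivity
        nlinarith
      linarith
    exact le_of_sq_le_sq h5 (by positivity)
  have hdiv : ((N / W : ℕ) : ℝ) ≤ N / W := Nat.cast_div_le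
  have hNW : 1 ≤ (N : ℝ) / W := by rw [le_div_iff₀ hW0]; linarith
  have hs1 : 1 ≤ Real.sqrt (2 * t * W) := by
    apply Real.one_le_sqrt.2
    have h6 : (1 : ℝ) ≤ W := by exact_mod_cast hW1
    nlinarith
  have hprod : ((N / W + 1 : ℕ) : ℝ) * (Real.sqrt (2 * t * W) + 1) ≤ 8 * t * (N / y) := by
    calc ((N / W + 1 : ℕ) : ℝ) * (Real.sqrt (2 * t * W) + 1)
        ≤ (2 * ((N : ℝ) / W)) * (2 * Real.sqrt (2 * t * W)) := by
          push_cast
          gcongr
          · linarith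
          · linarith
      _ = 4 * (N / W) * Real.sqrt (2 * t * W) := by ring
      _ ≤ 4 * (N / W) * (2 * t * W / y) := by
          gcongr
          rw [le_div_iff₀ (by linarith)]
          exact hsy
      _ = 8 * t * (N / y) := by
          field_simp
          ring
  have hNy : (N : ℝ) / y ≤ (N : ℝ) ^ (1 - δ ^ 2 / 400) := by
    have h5 : (N : ℝ) / y = (N : ℝ) ^ (1 - kap / 4) := by
      rw [Real.rpow_sub hN0, Real.rpow_one]
    rw [h5]
    exact Real.rpow_le_rpow_of_exponent_le hN1 (by linarith)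
  have hsqN : Real.sqrt N ≤ (N : ℝ) ^ (1 - δ ^ 2 / 400) := by
    rw [Real.sqrt_eq_rpow]
    refine Real.rpow_le_rpow_of_exponent_le hN1 ?_
    nlinarith
  set Z : ℝ := (N : ℝ) ^ (1 - δ ^ 2 / 400) with hZ
  have hZ0 : 0 < Z := Real.rpow_pos_of_pos hN0 _
  have hfin : 8 * (t : ℝ) * (N / y) ≤ 8 * t * Z := mul_le_mul_of_nonneg_left hNy (by linarith)
  clear_value Z y x
  calc (((Icc 1 N).filter P).card : ℝ)
      ≤ a + ((N / W + 1 : ℕ) : ℝ) * (Real.sqrt (2 * t * W) + 1) := hcov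
    _ ≤ 2 * Z + 8 * t * Z := by linarith
    _ = (2 + 8 * t) * Z := by ring
    _ ≤ 50 / δ * Z := by
        refine mul_le_mul_of_nonneg_right ?_ hZ0.le
        have h5 : 50 / δ = 8 * (5 / δ) + 10 * (1 / δ) := by ring
        linarith

theorem t_ARC (h : S_WIN) : S_ARC := by
  classical
  obtain ⟨n1, hn1⟩ := h
  refine ⟨(n1 ^ 2 + 3 : ℕ) + Real.exp 164 + 50, by positivity, ?_⟩
  intro δ hδ hδ1 N hN θ
  have hN1 : (1 : ℝ) ≤ N := by exact_mod_cast hN
  have hN0 : (0 : ℝ) < N := by linarith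
  have hcard : (((Icc 1 N).filter (fun n : ℕ =>
      Near θ (Real.exp (-(δ * (n : ℝ)))) (Real.exp (n : ℝ)))).card : ℝ) ≤ N := by
    have h5 := card_filter_le (Icc 1 N) (fun n : ℕ =>
      Near θ (Real.exp (-(δ * (n : ℝ)))) (Real.exp (n : ℝ)))
    rw [Nat.card_Icc] at h5
    have h6 : N + 1 - 1 = N := by omega
    rw [h6] at h5
    exact_mod_cast h5
  have hZ0 : 0 < (N : ℝ) ^ (1 - δ ^ 2 / 400) := Real.rpow_pos_of_pos hN0 _
  by_cases hsmall : N < n1 ^ 2 + 3
  · refine hcard.trans ?_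
    refine arc_triv _ δ N hδ hδ1 hN (by positivity) ?_
    calc (N : ℝ) ^ (δ ^ 2 / 400) ≤ (N : ℝ) ^ (1 : ℝ) :=
          Real.rpow_le_rpow_of_exponent_le hN1 (by nlinarith)
      _ = N := Real.rpow_one _
      _ ≤ ((n1 ^ 2 + 3 : ℕ) : ℝ) := by exact_mod_cast hsmall.le
      _ ≤ _ := by
          have := Real.exp_pos 164
          linarith
  · have hN3 : 3 ≤ N := by omega
    by_cases hl : δ * Real.log N < 128 * Real.log (Real.log N)
    · refine hcard.trans ?_
      refine arc_triv _ δ N hδ hδ1 hN (by positivity) ?_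
      refine (arc_log δ N hδ hN3 hl).trans ?_
      have : (0 : ℝ) ≤ ((n1 ^ 2 + 3 : ℕ) : ℝ) := Nat.cast_nonneg _
      linarith
    · push Not at hl
      have h5 := arc_main n1 (fun n W δ' θ' h1 h2 h3 h4 h5 h6 P hP hPN => by
        have h7 := hn1 n W δ' θ' h1 h2 h3 h4 h5 h6
        have e : ∀ j : ℕ, (Near θ' (Real.exp (-(δ' * ((n : ℝ) + j)))) (Real.exp ((n : ℝ) + j)) ↔
            P (n + j)) := by
          intro j
          rw [hPN]
          push_cast
          rfl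
        simp only [e] at h7
        convert h7) δ θ N hδ hδ1 hN3 (by omega) hl
        (fun n : ℕ => Near θ (Real.exp (-(δ * (n : ℝ)))) (Real.exp (n : ℝ))) (fun m => Iff.rfl)
      refine le_trans (le_of_eq ?_) (h5.trans ?_)
      · congr!
      · gcongr
        have : (0 : ℝ) ≤ ((n1 ^ 2 + 3 : ℕ) : ℝ) := Nat.cast_nonneg _
        have := Real.exp_pos 164
        linarith

end Pool.Agent.H771R3.EN
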