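import Pool.Agent.H771R3.EN.Defs

/-!
# EN, task CON: contradiction from many near integers
-/

namespace Pool.Agent.H771R3.EN

open Finset PowerSeries

theorem con_V (T : Finset ℕ) : 0 < V T := by
  unfold V
  refine Finset.prod_pos fun i _ => Finset.prod_pos fun l hl => ?_
  have := (Finset.mem_filter.mp hl).2
  omega

theorem t_CON (h : S_FORM) : S_CON := by
  intro T n d m W ψ hT hm hW hd hdW hnear h1 h2
  obtain ⟨c, g, hsum, hg1, hg2, hc⟩ := h T m W hT hm hW
  choose! b hb using hnear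
  have hVpos : (0 : ℝ) < (V T : ℝ) := by exact_mod_cast con_V T
  set P : ℝ := (V T : ℝ) ^ (2 * m) * ((m - 1).factorial : ℝ) with hP
  have hPpos : 0 < P := by
    have : (0 : ℝ) < ((m - 1).factorial : ℝ) := by exact_mod_cast Nat.factorial_pos _
    positivity
  set F : ℝ := ((m * T.card - 1).factorial : ℝ) with hF
  have hFpos : 0 < F := by
    have : (0 : ℝ) < ((m * T.card - 1).factorial : ℝ) := by exact_mod_cast Nat.factorial_pos _
    exact this
  set lam : ℝ := Real.exp d - 1 with hlam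
  have hlam1 : 1 ≤ lam := by
    have h3 := Real.add_one_le_exp (d : ℝ)
    have h4 : (1 : ℝ) ≤ d := by exact_mod_cast hd
    rw [hlam]; linarith
  have hlam2 : lam ≤ Real.exp W := by
    have h3 : Real.exp (d : ℝ) ≤ Real.exp (W : ℝ) :=
      Real.exp_le_exp.mpr (by exact_mod_cast hdW)
    rw [hlam]; linarith
  have hψ : 0 ≤ ψ := by
    obtain ⟨j, hj⟩ := hT
    have h3 := hb j hj
    have h4 := abs_nonneg (Real.exp ((n : ℝ) + j + d) - Real.exp ((n : ℝ) + j) - (b j : ℝ))
    linarith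
  have hY : ∑ j ∈ T, (c j : ℝ) * (Real.exp ((n : ℝ) + j + d) - Real.exp ((n : ℝ) + j)) =
      lam * Real.exp n * (P * g) := by
    rw [← hsum, Finset.mul_sum]
    refine Finset.sum_congr rfl fun j _ => ?_
    rw [Real.exp_add, Real.exp_add, hlam]
    ring
  have herr : |∑ j ∈ T, (c j : ℝ) * (Real.exp ((n : ℝ) + j + d) - Real.exp ((n : ℝ) + j)) -
      ((∑ j ∈ T, c j * b j : ℤ) : ℝ)| ≤ 2 * ψ * (3 * (T.card : ℝ) * P * 2 ^ (m * T.card)) := by
    have e1 : ∑ j ∈ T, (c j : ℝ) * (Real.exp ((n : ℝ) + j + d) - Real.exp ((n : ℝ) + j)) -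
      ((∑ j ∈ T, c j * b j : ℤ) : ℝ) =
      ∑ j ∈ T, (c j : ℝ) * (Real.exp ((n : ℝ) + j + d) - Real.exp ((n : ℝ) + j) - (b j : ℝ)) := by
      push_cast
      rw [← Finset.sum_sub_distrib]
      refine Finset.sum_congr rfl fun j _ => ?_
      ring
    rw [e1]
    refine (Finset.abs_sum_le_sum_abs _ _).trans ?_
    have e2 : ∑ j ∈ T, |(c j : ℝ) *
        (Real.exp ((n : ℝ) + j + d) - Real.exp ((n : ℝ) + j) - (b j : ℝ))| ≤
        ∑ j ∈ T, 2 * ψ * |(c j : ℝ)| := by
      refine Finset.sum_le_sum fun j hj => ?_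
      rw [abs_mul, mul_comm]
      exact mul_le_mul_of_nonneg_right (hb j hj) (abs_nonneg _)
    refine e2.trans ?_
    rw [← Finset.mul_sum]
    refine mul_le_mul_of_nonneg_left (hc.trans (le_of_eq ?_)) (by positivity)
    rw [hP]; ring
  set Y : ℝ := lam * Real.exp n * (P * g) with hYdef
  rw [hY] at herr
  have hgl : 1 ≤ g * F := by
    have := (div_le_iff₀ hFpos).mp hg1
    linarith
  have hgu : g * F ≤ Real.exp W := by
    have := (le_div_iff₀ hFpos).mp hg2
    linarith
  have hgpos : 0 < g := by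
    have : 0 < 1 / F := by positivity
    linarith
  have hen : 0 < Real.exp (n : ℝ) := Real.exp_pos _
  have hew : 0 < Real.exp (W : ℝ) := Real.exp_pos _
  -- lower bound
  have hlow : Real.exp n * P ≤ Y * F := by
    have e3 : Y * F = (lam * (g * F)) * (Real.exp n * P) := by rw [hYdef]; ring
    have e4 : 1 ≤ lam * (g * F) := by nlinarith
    rw [e3]
    have : 0 < Real.exp (n : ℝ) * P := by positivity
    nlinarith
  have hup : 2 * (Y * F) ≤ F := by
    have e3 : Y * F = (lam * (g * F)) * (Real.exp n * P) := by rw [hYdef]; ring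
    have e4 : lam * (g * F) ≤ Real.exp W * Real.exp W := by
      refine mul_le_mul hlam2 hgu ?_ hew.le
      positivity
    have e5 : Real.exp ((n : ℝ) + 2 * W) = Real.exp n * (Real.exp W * Real.exp W) := by
      rw [← Real.exp_add, ← Real.exp_add]; congr 1; ring
    have e6 : 2 * (Real.exp n * (Real.exp W * Real.exp W)) * P ≤ F := by
      rw [e5] at h1
      calc _ = 2 * (Real.exp n * (Real.exp W * Real.exp W)) * (V T : ℝ) ^ (2 * m) *
            ((m - 1).factorial : ℝ) := by rw [hP]; ring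
        _ ≤ _ := h1
    have e7 : (lam * (g * F)) * (Real.exp n * P) ≤
        (Real.exp W * Real.exp W) * (Real.exp n * P) :=
      mul_le_mul_of_nonneg_right e4 (by positivity)
    rw [e3]
    linarith [e6, e7]
  have herr2 : 2 * ψ * (3 * (T.card : ℝ) * P * 2 ^ (m * T.card)) * F < Real.exp n * P := by
    have e8 : 2 * ψ * (3 * (T.card : ℝ) * P * 2 ^ (m * T.card)) * F =
      (6 * (T.card : ℝ) * 2 ^ (m * T.card) * F * ψ) * P := by ring
    rw [e8]
    exact mul_lt_mul_of_pos_right h2 hPpos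
  set err : ℝ := 2 * ψ * (3 * (T.card : ℝ) * P * 2 ^ (m * T.card)) with herrdef
  have hYerr : err < Y := by
    have : err * F < Y * F := lt_of_lt_of_le herr2 hlow
    exact lt_of_mul_lt_mul_right this hFpos.le
  have hY2 : 2 * Y ≤ 1 := by
    have : 2 * Y * F ≤ 1 * F := by linarith
    exact le_of_mul_le_mul_right this hFpos
  obtain ⟨l1, l2⟩ := abs_le.mp herr
  have hB1 : (0 : ℝ) < ((∑ j ∈ T, c j * b j : ℤ) : ℝ) := by linarith
  have hB2 : ((∑ j ∈ T, c j * b j : ℤ) : ℝ) < 1 := by linarith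
  have hB1' : 0 < ∑ j ∈ T, c j * b j := by exact_mod_cast hB1
  have hB2' : ∑ j ∈ T, c j * b j < 1 := by exact_mod_cast hB2
  omega

end Pool.Agent.H771R3.EN
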