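import Mathlib

/-!
# The powers of e modulo one: definitions and exact statements (Props `S_...`) of all tasks
-/

namespace Pool.Agent.H771R3.EN

open Finset PowerSeries

/-- the series `1 / (1 - j X)` -/
noncomputable def L (j : ℕ) : PowerSeries ℚ := PowerSeries.mk fun n => (j : ℚ) ^ n

/-- the series `1 / (d + X)` -/
noncomputable def invS (d : ℤ) : PowerSeries ℚ :=
  PowerSeries.mk fun r => (-1) ^ r / (d : ℚ) ^ (r + 1)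

/-- the series of `1 / ∏ (y - i)^m` (product over `i ∈ T`, `i ≠ j`) in powers of `X = y - j` -/
noncomputable def I (T : Finset ℕ) (m j : ℕ) : PowerSeries ℚ :=
  ∏ i ∈ T.erase j, (invS ((j : ℤ) - (i : ℤ))) ^ m

/-- product of all differences of elements of `T` -/
def V (T : Finset ℕ) : ℕ := ∏ i ∈ T, ∏ l ∈ T.filter (fun l => i < l), (l - i)

/-- `x - θ` has distance less than `ψ` from some integer -/
def Near (θ ψ x : ℝ) : Prop := ∃ b : ℤ, |x - θ - b| < ψ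

/-- integrality of the coefficients -/
def S_INT : Prop := ∀ (T : Finset ℕ) (m j : ℕ), j ∈ T → ∀ r ≤ m,
  ∃ z : ℤ, (V T : ℚ) ^ (2 * m) * coeff r (I T m j) = z

/-- size of the coefficients -/
def S_SIZ : Prop := ∀ (T : Finset ℕ) (m j : ℕ), j ∈ T → ∀ r,
  |coeff r (I T m j)| ≤ (2 : ℚ) ^ (m * (T.card - 1)) * 2 ^ r

/-- partial fractions -/
def S_PF : Prop := ∀ (T : Finset ℕ) (m : ℕ), T.Nonempty → 1 ≤ m →
  ∑ j ∈ T, ∑ s ∈ range m, C (coeff (m - 1 - s) (I T m j)) * X ^ s * (L j) ^ (s + 1) =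
    X ^ (m * T.card - 1) * ∏ j ∈ T, (L j) ^ m

/-- the value of a basis function at 1 -/
def S_EXP : Prop := ∀ j s : ℕ,
  HasSum (fun k : ℕ => ((coeff k (X ^ s * (L j) ^ (s + 1)) : ℚ) : ℝ) / (k.factorial : ℝ))
    (Real.exp j / (s.factorial : ℝ))

/-- size of the value -/
def S_PRO : Prop := ∀ (T : Finset ℕ) (m W : ℕ), T.Nonempty → 1 ≤ m → (∀ j ∈ T, j ≤ W) →
  ∃ g : ℝ, HasSum (fun k : ℕ =>
      ((coeff k (X ^ (m * T.card - 1) * ∏ j ∈ T, (L j) ^ m) : ℚ) : ℝ) / (k.factorial : ℝ)) g ∧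
    1 / ((m * T.card - 1).factorial : ℝ) ≤ g ∧
    g ≤ Real.exp W / ((m * T.card - 1).factorial : ℝ)

/-- Hermite-Pade form of type I (from INT, SIZ, PF, EXP, PRO) -/
def S_FORM : Prop := ∀ (T : Finset ℕ) (m W : ℕ), T.Nonempty → 1 ≤ m → (∀ j ∈ T, j ≤ W) →
  ∃ (c : ℕ → ℤ) (g : ℝ),
    ∑ j ∈ T, (c j : ℝ) * Real.exp j = (V T : ℝ) ^ (2 * m) * ((m - 1).factorial : ℝ) * g ∧
    1 / ((m * T.card - 1).factorial : ℝ) ≤ g ∧
    g ≤ Real.exp W / ((m * T.card - 1).factorial : ℝ) ∧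
    ∑ j ∈ T, |(c j : ℝ)| ≤
      3 * (T.card : ℝ) * (V T : ℝ) ^ (2 * m) * ((m - 1).factorial : ℝ) * 2 ^ (m * T.card)

/-- contradiction from many near integers (from FORM) -/
def S_CON : Prop := ∀ (T : Finset ℕ) (n d m W : ℕ) (ψ : ℝ), T.Nonempty → 1 ≤ m →
  (∀ j ∈ T, j ≤ W) → 1 ≤ d → d ≤ W →
  (∀ j ∈ T, ∃ b : ℤ, |Real.exp ((n : ℝ) + j + d) - Real.exp ((n : ℝ) + j) - b| ≤ 2 * ψ) →
  2 * Real.exp ((n : ℝ) + 2 * W) * (V T : ℝ) ^ (2 * m) * ((m - 1).factorial : ℝ) ≤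
    ((m * T.card - 1).factorial : ℝ) →
  6 * (T.card : ℝ) * 2 ^ (m * T.card) * ((m * T.card - 1).factorial : ℝ) * ψ < Real.exp n →
  False

/-- size of the product of differences -/
def S_VB : Prop := ∀ (T : Finset ℕ) (W t : ℕ), (∀ j ∈ T, j ≤ W) → 1 ≤ W → T.card = t + 1 →
  (V T) ^ 2 ≤ W ^ (t * (t + 1))

/-- many pairs with the same difference -/
def S_PIG : Prop := ∀ (S : Finset ℕ) (W t : ℕ), S ⊆ range W →
  2 * t * W < S.card * (S.card - 1) →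
  ∃ d, 1 ≤ d ∧ d < W ∧ t + 1 ≤ (S.filter (fun j => j + d ∈ S)).card

/-- choice of the parameter `m` -/
def S_PAR : Prop := ∃ n1 : ℕ, ∀ (n t W : ℕ) (δ : ℝ), n1 ≤ n → 0 < δ → δ ≤ 1 →
  64 * Real.log (Real.log n) ≤ δ * Real.log n → t = ⌈4 / δ⌉₊ → 1 ≤ W →
  16 * ((t : ℝ) + 1) * Real.log W ≤ δ * Real.log n →
  ∃ m : ℕ, 1 ≤ m ∧
    2 * Real.exp ((n : ℝ) + 2 * W) * (W : ℝ) ^ (t * (t + 1) * m) * ((m - 1).factorial : ℝ) ≤
      ((m * (t + 1) - 1).factorial : ℝ) ∧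
    6 * ((t : ℝ) + 1) * 2 ^ (m * (t + 1)) * ((m * (t + 1) - 1).factorial : ℝ) *
      Real.exp (-(δ * n)) < Real.exp n

open Classical in
/-- few near integers in a window (from CON, VB, PIG, PAR) -/
def S_WIN : Prop := ∃ n1 : ℕ, ∀ (n W : ℕ) (δ θ : ℝ), n1 ≤ n → 0 < δ → δ ≤ 1 →
  64 * Real.log (Real.log n) ≤ δ * Real.log n → 1 ≤ W →
  16 * ((⌈4 / δ⌉₊ : ℝ) + 1) * Real.log W ≤ δ * Real.log n →
  ((range W).filter (fun j : ℕ =>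
      Near θ (Real.exp (-(δ * ((n : ℝ) + j)))) (Real.exp ((n : ℝ) + j)))).card *
    (((range W).filter (fun j : ℕ =>
      Near θ (Real.exp (-(δ * ((n : ℝ) + j)))) (Real.exp ((n : ℝ) + j)))).card - 1) ≤
    2 * ⌈4 / δ⌉₊ * W

open Classical in
/-- short arcs contain few of the points `e^n` (from WIN) -/
def S_ARC : Prop := ∃ A : ℝ, 0 < A ∧ ∀ (δ : ℝ), 0 < δ → δ ≤ 1 → ∀ N : ℕ, 1 ≤ N → ∀ θ : ℝ,
  (((Icc 1 N).filter (fun n : ℕ =>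
      Near θ (Real.exp (-(δ * (n : ℝ)))) (Real.exp (n : ℝ)))).card : ℝ) ≤
    A / δ * (N : ℝ) ^ (1 - δ ^ 2 / 400)

/-- mean square of the Weyl sums (from ARC) -/
def S_WEYL : Prop := ∃ A : ℝ, 0 < A ∧ ∀ (δ : ℝ), 0 < δ → δ ≤ 1 → ∀ N : ℕ, 1 ≤ N →
  ∀ H : ℕ, Real.exp (δ * N) ≤ H →
  ∑ h ∈ Icc 1 H, ‖∑ n ∈ Icc 1 N,
      Complex.exp (2 * Real.pi * Complex.I * (h : ℂ) * (Real.exp (n : ℝ) : ℂ))‖ ^ 2 ≤
    A / δ * H * (N : ℝ) ^ (2 - δ ^ 2 / 1600)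

end Pool.Agent.H771R3.EN
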