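import Pool.Agent.H771R3.EN.Defs

/-!
# The value of a basis function at 1
-/

namespace Pool.Agent.H771R3.EN

open Finset PowerSeries

theorem EXP_L (j : ℕ) : L j = rescale (j : ℚ) (PowerSeries.mk 1) := by
  ext n
  rw [coeff_rescale, L, coeff_mk, coeff_mk]
  simp

theorem EXP_coeff (j s n : ℕ) :
    coeff n ((L j) ^ (s + 1)) = ((s + n).choose s : ℚ) * (j : ℚ) ^ n := by
  rw [EXP_L, ← map_pow, coeff_rescale, PowerSeries.mk_one_pow_eq_mk_choose_add, coeff_mk]
  ring

theorem EXP_sum (x : ℝ) : HasSum (fun n : ℕ => x ^ n / (n.factorial : ℝ)) (Real.exp x) := by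
  rw [Real.exp_eq_exp_ℝ]
  exact NormedSpace.expSeries_div_hasSum_exp x

theorem t_EXP : S_EXP := by
  intro j s
  set f : ℕ → ℝ := fun k => ((coeff k (X ^ s * (L j) ^ (s + 1)) : ℚ) : ℝ) / (k.factorial : ℝ)
    with hf
  have h0 : ∑ k ∈ range s, f k = 0 := by
    apply Finset.sum_eq_zero
    intro k hk
    rw [Finset.mem_range] at hk
    rw [hf]
    simp only
    rw [coeff_X_pow_mul', if_neg (by omega)]
    simp
  have h1 : ∀ n : ℕ, f (n + s) = (j : ℝ) ^ n / (n.factorial : ℝ) / (s.factorial : ℝ) := by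
    intro n
    rw [hf]
    simp only
    rw [coeff_X_pow_mul, EXP_coeff]
    have h2 : ((s + n).choose s : ℝ) * (s.factorial : ℝ) * (n.factorial : ℝ) =
        ((s + n).factorial : ℝ) := by
      have := Nat.choose_mul_factorial_mul_factorial (Nat.le_add_right s n)
      rw [Nat.add_sub_cancel_left] at this
      exact_mod_cast this
    have hs : (s.factorial : ℝ) ≠ 0 := by positivity
    have hn : (n.factorial : ℝ) ≠ 0 := by positivity
    have hsn : ((s + n).factorial : ℝ) ≠ 0 := by positivity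
    rw [add_comm n s]
    push_cast
    rw [div_div, div_eq_div_iff hsn (by positivity), ← h2]
    ring
  have h2 : HasSum (fun n : ℕ => f (n + s)) (Real.exp j / (s.factorial : ℝ)) := by
    simp only [h1]
    exact (EXP_sum j).div_const _
  have h3 := (hasSum_nat_add_iff s).1 h2
  rw [h0, add_zero] at h3
  exact h3

end Pool.Agent.H771R3.EN
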