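import Pool.Agent.H771R3.EN.Defs

/-! Task FORM: Hermite-Pade form of type I. -/

namespace Pool.Agent.H771R3.EN

open Finset PowerSeries

theorem FORM_int (h1 : S_INT) (T : Finset ℕ) (m j : ℕ) (hj : j ∈ T) :
    ∃ c : ℤ, (c : ℝ) = (V T : ℝ) ^ (2 * m) * ((m - 1).factorial : ℝ) *
      ∑ s ∈ range m, ((coeff (m - 1 - s) (I T m j) : ℚ) : ℝ) / (s.factorial : ℝ) := by
  have h : ∀ s ∈ range m, ∃ z : ℤ, (z : ℝ) = (V T : ℝ) ^ (2 * m) * ((m - 1).factorial : ℝ) *
      (((coeff (m - 1 - s) (I T m j) : ℚ) : ℝ) / (s.factorial : ℝ)) := by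
    intro s hs
    obtain ⟨z, hz⟩ := h1 T m j hj (m - 1 - s) (by omega)
    obtain ⟨q, hq⟩ := Nat.factorial_dvd_factorial
      (show s ≤ m - 1 by have := mem_range.1 hs; omega)
    refine ⟨z * q, ?_⟩
    have hz' : (V T : ℝ) ^ (2 * m) * ((coeff (m - 1 - s) (I T m j) : ℚ) : ℝ) = z := by
      exact_mod_cast congrArg (fun x : ℚ => (x : ℝ)) hz
    rw [hq]
    push_cast
    rw [← hz']
    have : (s.factorial : ℝ) ≠ 0 := by positivity
    field_simp
  choose! z hz using h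
  refine ⟨∑ s ∈ range m, z s, ?_⟩
  push_cast
  rw [mul_sum]
  exact sum_congr rfl hz

theorem FORM_e (m : ℕ) : ∑ s ∈ range m, (1 : ℝ) / (s.factorial : ℝ) ≤ 3 := by
  have h := Real.sum_le_exp_of_nonneg (x := 1) zero_le_one m
  have h2 := Real.exp_one_lt_d9
  have h3 : ∑ s ∈ range m, (1 : ℝ) / (s.factorial : ℝ) =
      ∑ i ∈ range m, (1 : ℝ) ^ i / (i.factorial : ℝ) :=
    sum_congr rfl fun s _ => by rw [one_pow]
  rw [h3]
  linarith

theorem t_FORM (h1 : S_INT) (h2 : S_SIZ) (h3 : S_PF) (h4 : S_EXP) (h5 : S_PRO) : S_FORM := by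
  intro T m W hT hm hW
  obtain ⟨g, hg, hg1, hg2⟩ := h5 T m W hT hm hW
  have hval : g = ∑ j ∈ T, ∑ s ∈ range m, ((coeff (m - 1 - s) (I T m j) : ℚ) : ℝ) *
      (Real.exp j / (s.factorial : ℝ)) := by
    refine hg.unique ?_
    have hs : HasSum (fun k : ℕ => ∑ j ∈ T, ∑ s ∈ range m,
        ((coeff (m - 1 - s) (I T m j) : ℚ) : ℝ) *
        (((coeff k (X ^ s * (L j) ^ (s + 1)) : ℚ) : ℝ) / (k.factorial : ℝ)))
        (∑ j ∈ T, ∑ s ∈ range m, ((coeff (m - 1 - s) (I T m j) : ℚ) : ℝ) *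
      (Real.exp j / (s.factorial : ℝ))) :=
      hasSum_sum fun j _ => hasSum_sum fun s _ => (h4 j s).mul_left _
    have hf : (fun k : ℕ => ((coeff k (X ^ (m * T.card - 1) * ∏ j ∈ T, (L j) ^ m) : ℚ) : ℝ) /
        (k.factorial : ℝ)) = (fun k : ℕ => ∑ j ∈ T, ∑ s ∈ range m,
        ((coeff (m - 1 - s) (I T m j) : ℚ) : ℝ) *
        (((coeff k (X ^ s * (L j) ^ (s + 1)) : ℚ) : ℝ) / (k.factorial : ℝ))) := by
      funext k
      rw [← h3 T m hT hm, map_sum]
      push_cast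
      rw [sum_div]
      refine sum_congr rfl fun j _ => ?_
      rw [map_sum]
      push_cast
      rw [sum_div]
      refine sum_congr rfl fun s _ => ?_
      rw [mul_assoc, coeff_C_mul]
      push_cast
      ring
    rw [hf]
    exact hs
  have hc : ∀ j ∈ T, ∃ c : ℤ, (c : ℝ) = (V T : ℝ) ^ (2 * m) * ((m - 1).factorial : ℝ) *
      ∑ s ∈ range m, ((coeff (m - 1 - s) (I T m j) : ℚ) : ℝ) / (s.factorial : ℝ) :=
    fun j hj => FORM_int h1 T m j hj
  choose! c hc using hc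
  refine ⟨c, g, ?_, hg1, hg2, ?_⟩
  · rw [hval, mul_sum]
    refine sum_congr rfl fun j hj => ?_
    rw [hc j hj, mul_assoc, sum_mul]
    congr 1
    exact sum_congr rfl fun s _ => by ring
  · have hcard : 1 ≤ T.card := hT.card_pos
    have hb : ∀ j ∈ T, |(c j : ℝ)| ≤ (V T : ℝ) ^ (2 * m) * ((m - 1).factorial : ℝ) *
        (2 ^ (m * T.card) * 3) := by
      intro j hj
      rw [hc j hj, abs_mul, abs_of_nonneg (by positivity)]
      apply mul_le_mul_of_nonneg_left _ (by positivity)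
      refine (abs_sum_le_sum_abs _ _).trans ?_
      have : ∀ s ∈ range m, |((coeff (m - 1 - s) (I T m j) : ℚ) : ℝ) / (s.factorial : ℝ)| ≤
          2 ^ (m * T.card) * (1 / (s.factorial : ℝ)) := by
        intro s hs
        rw [abs_div, abs_of_nonneg (show (0 : ℝ) ≤ (s.factorial : ℝ) by positivity),
          ← mul_one_div]
        apply mul_le_mul_of_nonneg_right _ (by positivity)
        have h6 := h2 T m j hj (m - 1 - s)
        have h7 : |((coeff (m - 1 - s) (I T m j) : ℚ) : ℝ)| ≤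
            (2 : ℝ) ^ (m * (T.card - 1)) * 2 ^ (m - 1 - s) := by
          exact_mod_cast h6
        refine h7.trans ?_
        rw [← pow_add]
        apply pow_le_pow_right₀ (by norm_num)
        obtain ⟨k, hk⟩ := Nat.exists_eq_add_of_le hcard
        rw [hk, Nat.add_sub_cancel_left, mul_add]
        omega
      refine (sum_le_sum this).trans ?_
      rw [← mul_sum]
      exact mul_le_mul_of_nonneg_left (FORM_e m) (by positivity)
    refine (sum_le_sum hb).trans (le_of_eq ?_)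
    rw [sum_const, nsmul_eq_mul]
    ring

end Pool.Agent.H771R3.EN
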