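import Pool.Agent.H771R3.EN.Defs

/-!
# Integrality of the coefficients
-/

namespace Pool.Agent.H771R3.EN

open Finset PowerSeries

/-- `v^r e` times the coefficient `r` is an integer -/
def INT_P (v e : ℤ) (F : PowerSeries ℚ) : Prop :=
  ∀ r, ∃ z : ℤ, (v : ℚ) ^ r * (e : ℚ) * coeff r F = z

theorem INT_mul {v e e' : ℤ} {F G : PowerSeries ℚ} (hF : INT_P v e F) (hG : INT_P v e' G) :
    INT_P v (e * e') (F * G) := by
  intro r
  choose a ha using hF
  choose b hb using hG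
  refine ⟨∑ p ∈ antidiagonal r, a p.1 * b p.2, ?_⟩
  rw [coeff_mul, Finset.mul_sum]
  push_cast
  apply Finset.sum_congr rfl
  intro p hp
  rw [Finset.HasAntidiagonal.mem_antidiagonal] at hp
  rw [← ha, ← hb, ← hp, pow_add]
  push_cast
  ring

theorem INT_one (v : ℤ) : INT_P v 1 1 := by
  intro r
  rw [coeff_one]
  by_cases h : r = 0
  · exact ⟨1, by simp [h]⟩
  · exact ⟨0, by simp [h]⟩

theorem INT_inv {v d : ℤ} (hd : d ≠ 0) (h : d ∣ v) : INT_P v d (invS d) := by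
  intro r
  obtain ⟨q, rfl⟩ := h
  refine ⟨(-1) ^ r * q ^ r, ?_⟩
  have hd' : (d : ℚ) ≠ 0 := by exact_mod_cast hd
  rw [invS, coeff_mk]
  push_cast
  rw [mul_pow, pow_succ]
  field_simp

theorem INT_pow {v e : ℤ} {F : PowerSeries ℚ} (hF : INT_P v e F) (m : ℕ) :
    INT_P v (e ^ m) (F ^ m) := by
  induction m with
  | zero => simpa using INT_one v
  | succ m ih =>
    rw [pow_succ, pow_succ]
    exact INT_mul ih hF

theorem INT_prod {v : ℤ} {S : Finset ℕ} {f : ℕ → ℤ} {F : ℕ → PowerSeries ℚ}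
    (h : ∀ i ∈ S, INT_P v (f i) (F i)) : INT_P v (∏ i ∈ S, f i) (∏ i ∈ S, F i) := by
  induction S using Finset.induction_on with
  | empty => simpa using INT_one v
  | @insert a S ha ih =>
    rw [Finset.prod_insert ha, Finset.prod_insert ha]
    exact INT_mul (h a (Finset.mem_insert_self a S))
      (ih (fun i hi => h i (Finset.mem_insert_of_mem hi)))

theorem INT_V_dvd {T : Finset ℕ} {i j : ℕ} (hi : i ∈ T) (hj : j ∈ T) (hij : i < j) :
    (j - i) ∣ V T := by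
  unfold V
  refine dvd_trans ?_ (Finset.dvd_prod_of_mem _ hi)
  exact Finset.dvd_prod_of_mem (fun l => l - i) (Finset.mem_filter.2 ⟨hj, hij⟩)

theorem INT_diff_dvd {T : Finset ℕ} {i j : ℕ} (hi : i ∈ T) (hj : j ∈ T) (hij : i ≠ j) :
    ((j : ℤ) - (i : ℤ)) ∣ (V T : ℤ) := by
  rw [Int.dvd_natCast]
  rcases lt_or_gt_of_ne hij with h | h
  · have e : ((j : ℤ) - (i : ℤ)).natAbs = j - i := by omega
    rw [e]
    exact INT_V_dvd hi hj h
  · have e : ((j : ℤ) - (i : ℤ)).natAbs = i - j := by omega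
    rw [e]
    exact INT_V_dvd hj hi h

theorem INT_E_dvd {T : Finset ℕ} {j : ℕ} (hj : j ∈ T) :
    (∏ i ∈ T.erase j, ((j : ℤ) - (i : ℤ))) ∣ (V T : ℤ) := by
  rw [Int.dvd_natCast]
  have e1 : (∏ i ∈ T.erase j, ((j : ℤ) - (i : ℤ))).natAbs =
      ∏ i ∈ T.erase j, ((j : ℤ) - (i : ℤ)).natAbs := map_prod Int.natAbsHom _ _
  rw [e1, ← Finset.prod_filter_mul_prod_filter_not (T.erase j) (fun i => j < i)]
  have e2 : ∏ i ∈ (T.erase j).filter (fun i => j < i), ((j : ℤ) - (i : ℤ)).natAbs =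
      ∏ l ∈ T.filter (fun l => j < l), (l - j) := by
    apply Finset.prod_congr
    · ext i
      simp only [Finset.mem_filter, Finset.mem_erase]
      constructor
      · rintro ⟨⟨_, h1⟩, h2⟩
        exact ⟨h1, h2⟩
      · rintro ⟨h1, h2⟩
        exact ⟨⟨by omega, h1⟩, h2⟩
    · intro i hi
      rw [Finset.mem_filter] at hi
      omega
  rw [e2]
  unfold V
  rw [← Finset.mul_prod_erase T _ hj]
  apply mul_dvd_mul_left
  have e3 : ∏ i ∈ (T.erase j).filter (fun i => ¬ j < i), ((j : ℤ) - (i : ℤ)).natAbs ∣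
      ∏ i ∈ (T.erase j).filter (fun i => ¬ j < i), ∏ l ∈ T.filter (fun l => i < l), (l - i) := by
    apply Finset.prod_dvd_prod_of_dvd
    intro i hi
    rw [Finset.mem_filter, Finset.mem_erase] at hi
    have hlt : i < j := by omega
    have e4 : ((j : ℤ) - (i : ℤ)).natAbs = j - i := by omega
    rw [e4]
    exact Finset.dvd_prod_of_mem (fun l => l - i) (Finset.mem_filter.2 ⟨hj, hlt⟩)
  refine e3.trans ?_
  exact Finset.prod_dvd_prod_of_subset _ _ _ (Finset.filter_subset _ _)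

theorem t_INT : S_INT := by
  intro T m j hj r hr
  have h1 : INT_P (V T : ℤ) (∏ i ∈ T.erase j, ((j : ℤ) - (i : ℤ)) ^ m) (I T m j) := by
    unfold I
    apply INT_prod
    intro i hi
    rw [Finset.mem_erase] at hi
    apply INT_pow
    apply INT_inv
    · have := hi.1
      omega
    · exact INT_diff_dvd hi.2 hj hi.1
  rw [Finset.prod_pow] at h1
  obtain ⟨z, hz⟩ := h1 r
  obtain ⟨q, hq⟩ := INT_E_dvd hj
  set E := ∏ i ∈ T.erase j, ((j : ℤ) - (i : ℤ)) with hE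
  refine ⟨(V T : ℤ) ^ (m - r) * q ^ m * z, ?_⟩
  have e1 : (V T : ℚ) = (E : ℚ) * q := by exact_mod_cast hq
  have e2 : (V T : ℚ) ^ (2 * m) = (V T : ℚ) ^ (m - r) * (V T : ℚ) ^ m * (V T : ℚ) ^ r := by
    rw [← pow_add, ← pow_add]
    congr 1
    omega
  push_cast at hz ⊢
  rw [← hz, e2]
  have e3 : (V T : ℚ) ^ m = (E : ℚ) ^ m * (q : ℚ) ^ m := by rw [e1, mul_pow]
  rw [e3]
  ring

end Pool.Agent.H771R3.EN
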