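import Pool.Agent.H771R3.EN.Defs

/-! Task PAR: choice of the parameter `m`. -/

namespace Pool.Agent.H771R3.EN

open Finset

theorem PAR_exp {l : ℝ} (hl : 64 ≤ l) : l ^ 2 ≤ Real.exp (l / 2) := by
  have h1 : l / 8 ≤ Real.exp (l / 8) := by
    have := Real.add_one_le_exp (l / 8)
    linarith
  have h2 : Real.exp (l / 2) = Real.exp (l / 8) ^ 4 := by
    rw [← Real.exp_nat_mul]
    congr 1
    push_cast
    ring
  rw [h2]
  have h3 : (l / 8) ^ 4 ≤ Real.exp (l / 8) ^ 4 := pow_le_pow_left₀ (by positivity) h1 4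
  refine le_trans ?_ h3
  have h4 : (l / 8) ^ 4 = l ^ 2 * (l / 64) ^ 2 := by ring
  rw [h4]
  have h5 : 1 ≤ (l / 64) ^ 2 := one_le_pow₀ (by linarith)
  nlinarith [sq_nonneg l]

theorem PAR_pow (x : ℝ) (hx : 0 < x) (k : ℕ) : x ^ k = Real.exp (k * Real.log x) := by
  rw [Real.exp_nat_mul, Real.exp_log hx]

/-- part A -/
theorem PAR_A (N l u δ t W m : ℝ) (hN : N = Real.exp l) (hl : 64 ≤ l) (hδ : 0 < δ) (hδ1 : δ ≤ 1)
    (hu : 64 * u ≤ δ * l) (hδl : 64 ≤ δ * l)
    (hW1 : 1 ≤ W) (hWE : W ≤ Real.exp (l / 2)) (hW : 16 * (t + 1) * Real.log W ≤ δ * l)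
    (ht : 0 < t) (hm : 0 < m) (hlm : l - 2 * u ≤ Real.log m)
    (hmt : (1 + δ / 4) * N ≤ m * t * l) :
    Real.log 2 + (N + 2 * W) + t * (t + 1) * m * Real.log W ≤ t * m * Real.log m := by
  have hl0 : 0 < l := by linarith
  have hE : l ^ 2 ≤ Real.exp (l / 2) := PAR_exp hl
  set E := Real.exp (l / 2) with hEd
  have hNE : N = E * E := by
    rw [hN, hEd, ← Real.exp_add]
    congr 1
    ring
  have hE0 : 0 < E := Real.exp_pos _
  -- `δ N ≥ 4096 E`
  have h1 : 4096 * E ≤ δ * N := by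
    rw [hNE]
    have : 4096 ≤ δ * E := by
      have : δ * l ^ 2 ≤ δ * E := mul_le_mul_of_nonneg_left hE hδ.le
      have h2 : 64 * l ≤ δ * l ^ 2 := by nlinarith
      linarith
    nlinarith
  have hE1 : 1 ≤ E := by nlinarith
  have h2 : Real.log 2 ≤ 1 := by
    have := Real.log_two_lt_d9
    linarith
  have h3 : (t + 1) * Real.log W ≤ δ * l / 16 := by linarith
  have h4 : l * (1 - 3 * δ / 32) ≤ Real.log m - (t + 1) * Real.log W := by nlinarith
  have h5 : t * m * (l * (1 - 3 * δ / 32)) ≤ t * m * (Real.log m - (t + 1) * Real.log W) :=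
    mul_le_mul_of_nonneg_left h4 (by positivity)
  have h6 : (1 + δ / 4) * N * (1 - 3 * δ / 32) ≤ m * t * l * (1 - 3 * δ / 32) :=
    mul_le_mul_of_nonneg_right hmt (by linarith)
  have hN0 : 0 < N := by rw [hN]; exact Real.exp_pos _
  have h7 : N + 17 * (δ * N) / 128 ≤ (1 + δ / 4) * N * (1 - 3 * δ / 32) := by
    have e : (1 + δ / 4) * N * (1 - 3 * δ / 32) - (N + 17 * (δ * N) / 128) =
      3 / 128 * (δ * N) * (1 - δ) := by ring
    have : 0 ≤ 3 / 128 * (δ * N) * (1 - δ) := by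
      apply mul_nonneg (by positivity) (by linarith)
    linarith
  nlinarith

/-- part B -/
theorem PAR_B (N l δ t m : ℝ) (hN : N = Real.exp l) (hl : 64 ≤ l) (hδ : 0 < δ) (hδ1 : δ ≤ 1)
    (hδl : 64 ≤ δ * l) (ht : 0 < t) (ht4 : 4 ≤ δ * t) (htl : 64 * (t + 1) ≤ 6 * l)
    (hm : 0 < m) (hmt : m * t * l ≤ (1 + δ / 4) * N + t * l) :
    2 * (m * (t + 1)) ≤ N ∧ l + m * (t + 1) * l - δ * N < N := by
  have hl0 : 0 < l := by linarith
  have hE : l ^ 2 ≤ Real.exp (l / 2) := PAR_exp hl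
  set E := Real.exp (l / 2) with hEd
  have hNE : N = E * E := by
    rw [hN, hEd, ← Real.exp_add]
    congr 1
    ring
  have hE0 : 0 < E := Real.exp_pos _
  have hN0 : 0 < N := by rw [hN]; exact Real.exp_pos _
  have hEN : 4096 * E ≤ N := by
    rw [hNE]
    have : 4096 ≤ E := by nlinarith
    nlinarith
  have h1 : 64 * l * E ≤ δ * N := by
    rw [hNE]
    have h2 : 64 * l ≤ δ * E := by
      have : δ * l ^ 2 ≤ δ * E := mul_le_mul_of_nonneg_left hE hδ.le
      have h2 : 64 * l ≤ δ * l ^ 2 := by nlinarith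
      linarith
    nlinarith
  -- `m l ≤ (δ / 4) m t l`
  have h2 : m * l ≤ δ / 4 * (m * t * l) := by
    have : 1 ≤ δ * t / 4 := by linarith
    have h3 : m * l * 1 ≤ m * l * (δ * t / 4) := mul_le_mul_of_nonneg_left this (by positivity)
    linarith
  have h2' : m * l * t ≤ (1 + δ / 4) * N + t * l := by linarith
  -- `m l ≤ (δ / 4) (1 + δ / 4) N + l`
  have h3 : m * l ≤ δ / 4 * ((1 + δ / 4) * N) + 5 / 4 * l + t * l := by
    have : δ / 4 * (m * t * l) ≤ δ / 4 * ((1 + δ / 4) * N + t * l) :=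
      mul_le_mul_of_nonneg_left hmt (by positivity)
    have h4 : δ / 4 * (t * l) ≤ t * l := by
      have : δ / 4 ≤ 1 := by linarith
      have h5 : 0 ≤ t * l := by positivity
      nlinarith
    nlinarith
  have h4 : m * (t + 1) * l ≤ (1 + 9 * δ / 16) * N + (2 * t + 5 / 4) * l := by
    have e : m * (t + 1) * l = m * t * l + m * l := by ring
    have h5 : δ ^ 2 * N ≤ δ * N := by
      have : δ ^ 2 ≤ δ := by nlinarith
      exact mul_le_mul_of_nonneg_right this hN0.le
    rw [e]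
    nlinarith
  have h5 : (2 * t + 5 / 4) * l ≤ l ^ 2 := by nlinarith
  constructor
  · have h6 : 2 * (m * (t + 1)) * l ≤ N * l := by
      have : δ * N ≤ N := by nlinarith
      nlinarith
    exact le_of_mul_le_mul_right h6 hl0
  · have : l ^ 3 ≤ l * E := by nlinarith
    nlinarith

theorem t_PAR : S_PAR := by
  refine ⟨⌈Real.exp (Real.exp 1)⌉₊, ?_⟩
  intro n t W δ hn hδ hδ1 hll ht hW1 hW
  have hn' : Real.exp (Real.exp 1) ≤ (n : ℝ) := (Nat.le_ceil _).trans (by exact_mod_cast hn)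
  have hn0 : (0 : ℝ) < n := (Real.exp_pos _).trans_le hn'
  set l := Real.log (n : ℝ) with hl
  have hle : Real.exp 1 ≤ l := by
    rw [hl, Real.le_log_iff_exp_le hn0]
    exact hn'
  have hl0 : 0 < l := (Real.exp_pos _).trans_le hle
  have hu1 : 1 ≤ Real.log l := by
    rw [Real.le_log_iff_exp_le hl0]
    exact hle
  have hδl : 64 ≤ δ * l := by linarith
  have hl64 : 64 ≤ l := by nlinarith
  have hN : (n : ℝ) = Real.exp l := (Real.exp_log hn0).symm
  -- bounds for `t`
  have t1 : 4 / δ ≤ (t : ℝ) := by rw [ht]; exact Nat.le_ceil _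
  have t2 : (t : ℝ) < 4 / δ + 1 := by rw [ht]; exact Nat.ceil_lt_add_one (by positivity)
  have t3 : 4 ≤ δ * t := by
    rw [div_le_iff₀ hδ] at t1
    linarith
  have t4 : δ * (t + 1) ≤ 6 := by
    have : δ * t < δ * (4 / δ + 1) := mul_lt_mul_of_pos_left t2 hδ
    have e : δ * (4 / δ + 1) = 4 + δ := by field_simp
    linarith
  have t5 : 64 * ((t : ℝ) + 1) ≤ 6 * l := by
    have : 64 * ((t : ℝ) + 1) ≤ δ * l * (t + 1) := mul_le_mul_of_nonneg_right hδl (by positivity)
    nlinarith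
  have t0 : (0 : ℝ) < t := by nlinarith
  have t0' : 0 < t := by exact_mod_cast t0
  have hW1' : (1 : ℝ) ≤ W := by exact_mod_cast hW1
  have hlW : 0 ≤ Real.log W := Real.log_nonneg hW1'
  have hWE : (W : ℝ) ≤ Real.exp (l / 2) := by
    rw [← Real.log_le_iff_le_exp (by linarith)]
    nlinarith
  -- the parameter
  set m : ℕ := ⌈(1 + δ / 4) * n / (t * l)⌉₊ with hm
  have hx0 : 0 < (1 + δ / 4) * n / (t * l) := by positivity
  have m1 : (1 + δ / 4) * n / (t * l) ≤ m := Nat.le_ceil _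
  have m2 : (m : ℝ) < (1 + δ / 4) * n / (t * l) + 1 := Nat.ceil_lt_add_one hx0.le
  have m0 : 1 ≤ m := Nat.one_le_iff_ne_zero.2 (Nat.ceil_pos.2 hx0).ne'
  have m0' : (0 : ℝ) < m := by exact_mod_cast m0
  have m3 : (1 + δ / 4) * n ≤ m * t * l := by
    rw [div_le_iff₀ (by positivity)] at m1
    linarith
  have m4 : (m : ℝ) * t * l ≤ (1 + δ / 4) * n + t * l := by
    have : (m : ℝ) * (t * l) < ((1 + δ / 4) * n / (t * l) + 1) * (t * l) :=
      mul_lt_mul_of_pos_right m2 (by positivity)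
    have e : ((1 + δ / 4) * n / (t * l) + 1) * (t * l) = (1 + δ / 4) * n + t * l := by
      field_simp
    linarith
  have m5 : l - 2 * Real.log l ≤ Real.log m := by
    have h1 : (n : ℝ) / l ^ 2 ≤ m := by
      refine le_trans ?_ m1
      rw [div_le_div_iff₀ (by positivity) (by positivity)]
      have h2 : (t : ℝ) ≤ l := by linarith
      have h3 : (n : ℝ) * (t * l) ≤ n * (l * l) := by
        apply mul_le_mul_of_nonneg_left _ hn0.le
        exact mul_le_mul_of_nonneg_right h2 hl0.le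
      have h4 : (n : ℝ) * l ^ 2 ≤ (1 + δ / 4) * n * l ^ 2 := by
        have : 0 ≤ δ / 4 * (n * l ^ 2) := by positivity
        nlinarith
      nlinarith
    have h2 := Real.log_le_log (by positivity) h1
    rw [Real.log_div hn0.ne' (by positivity), Real.log_pow] at h2
    push_cast at h2
    exact h2
  refine ⟨m, m0, ?_, ?_⟩
  · have hA := PAR_A (n : ℝ) l (Real.log l) δ t W m hN hl64 hδ hδ1 hll hδl hW1' hWE hW t0 m0' m5 m3
    have h1 : 2 * Real.exp ((n : ℝ) + 2 * W) * (W : ℝ) ^ (t * (t + 1) * m) ≤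
        (m : ℝ) ^ (t * m) := by
      have e1 : 2 * Real.exp ((n : ℝ) + 2 * W) * (W : ℝ) ^ (t * (t + 1) * m) =
          Real.exp (Real.log 2 + ((n : ℝ) + 2 * W) + t * (t + 1) * m * Real.log W) := by
        rw [PAR_pow W (by linarith) (t * (t + 1) * m), Real.exp_add (Real.log 2 + _),
          Real.exp_add (Real.log 2), Real.exp_log (by norm_num)]
        push_cast
        rfl
      have e2 : (m : ℝ) ^ (t * m) = Real.exp (t * m * Real.log m) := by
        rw [PAR_pow m m0' (t * m)]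
        push_cast
        rfl
      rw [e1, e2]
      exact Real.exp_le_exp.2 hA
    have h2 : ((m - 1).factorial : ℝ) * (m : ℝ) ^ (t * m) ≤ ((m * (t + 1) - 1).factorial : ℝ) := by
      have h3 := Nat.factorial_mul_pow_le_factorial (m := m - 1) (n := t * m)
      have e : m - 1 + 1 = m := by omega
      have e2 : m - 1 + t * m = m * (t + 1) - 1 := by
        have : m * (t + 1) = t * m + m := by ring
        omega
      rw [e, e2] at h3
      exact_mod_cast h3
    calc 2 * Real.exp ((n : ℝ) + 2 * W) * (W : ℝ) ^ (t * (t + 1) * m) * ((m - 1).factorial : ℝ)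
        ≤ (m : ℝ) ^ (t * m) * ((m - 1).factorial : ℝ) :=
          mul_le_mul_of_nonneg_right h1 (by positivity)
      _ ≤ _ := by rw [mul_comm]; exact h2
  · obtain ⟨b1, b2⟩ := PAR_B (n : ℝ) l δ t m hN hl64 hδ hδ1 hδl t0 t3 t5 m0' m4
    set M : ℕ := m * (t + 1) with hM
    have hMr : (M : ℝ) = m * (t + 1) := by rw [hM]; push_cast; ring
    have hM1 : 1 ≤ M := Nat.mul_pos m0 (Nat.succ_pos t)
    have hM0 : (0 : ℝ) < M := by exact_mod_cast hM1
    have h1 : (2 : ℝ) ^ M * ((M - 1).factorial : ℝ) ≤ Real.exp (M * l) := by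
      have h2 : ((M - 1).factorial : ℝ) ≤ (M : ℝ) ^ M := by
        have h3 : (M - 1).factorial ≤ M ^ M :=
          (Nat.factorial_le (Nat.sub_le M 1)).trans (Nat.factorial_le_pow M)
        exact_mod_cast h3
      have h3 : (2 : ℝ) ^ M * (M : ℝ) ^ M = (2 * M) ^ M := (mul_pow _ _ _).symm
      have h4 : (2 * (M : ℝ)) ^ M ≤ (n : ℝ) ^ M := by
        apply pow_le_pow_left₀ (by positivity)
        rw [hMr]
        exact b1
      have h5 : (n : ℝ) ^ M = Real.exp (M * l) := by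
        rw [hN, ← Real.exp_nat_mul]
      calc (2 : ℝ) ^ M * ((M - 1).factorial : ℝ) ≤ (2 : ℝ) ^ M * (M : ℝ) ^ M :=
            mul_le_mul_of_nonneg_left h2 (by positivity)
        _ ≤ _ := by rw [h3, ← h5]; exact h4
    have h6 : 6 * ((t : ℝ) + 1) ≤ Real.exp l := by
      have := Real.add_one_le_exp l
      linarith
    calc 6 * ((t : ℝ) + 1) * 2 ^ M * ((M - 1).factorial : ℝ) * Real.exp (-(δ * n))
        = 6 * ((t : ℝ) + 1) * (2 ^ M * ((M - 1).factorial : ℝ)) * Real.exp (-(δ * n)) := by ring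
      _ ≤ Real.exp l * Real.exp (M * l) * Real.exp (-(δ * n)) := by
          apply mul_le_mul_of_nonneg_right _ (Real.exp_pos _).le
          exact mul_le_mul h6 h1 (by positivity) (Real.exp_pos _).le
      _ = Real.exp (l + m * (t + 1) * l - δ * n) := by
          rw [← Real.exp_add, ← Real.exp_add, hMr]
          ring_nf
      _ < Real.exp n := Real.exp_lt_exp.2 b2

end Pool.Agent.H771R3.EN
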