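import Mathlib
import Pool.Agent.H771R3.EN.Defs

set_option autoImplicit false

namespace Pool.Agent.H771R3.EN

open Finset PowerSeries

lemma PF_L (j : ℕ) : (1 - PowerSeries.C (j : ℚ) * PowerSeries.X) * L j = 1 := by
  ext n
  rw [sub_mul, one_mul, map_sub, mul_assoc, PowerSeries.coeff_C_mul]
  cases n with
  | zero => simp [L]
  | succ n =>
    rw [PowerSeries.coeff_succ_X_mul, PowerSeries.coeff_one]
    simp only [L, PowerSeries.coeff_mk]
    rw [if_neg (by omega)]
    ring

lemma PF_inv (d : ℤ) (hd : d ≠ 0) : (PowerSeries.C (d : ℚ) + PowerSeries.X) * invS d = 1 := by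
  have hd' : (d : ℚ) ≠ 0 := by exact_mod_cast hd
  ext n
  rw [add_mul, map_add, PowerSeries.coeff_C_mul]
  cases n with
  | zero => simp [invS, hd']
  | succ n =>
    rw [PowerSeries.coeff_succ_X_mul, PowerSeries.coeff_one]
    simp only [invS, PowerSeries.coeff_mk]
    rw [if_neg (by omega)]
    field_simp
    ring

noncomputable def PF_B (T : Finset ℕ) (m j : ℕ) : Polynomial ℚ :=
  ∑ r ∈ range m, Polynomial.C (coeff r (I T m j)) * (Polynomial.X - Polynomial.C (j:ℚ)) ^ r

noncomputable def PF_Q (T : Finset ℕ) (m j : ℕ) : Polynomial ℚ :=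
  ∏ i ∈ T.erase j, (Polynomial.X - Polynomial.C (i:ℚ)) ^ m

lemma PF_Bcomp (T : Finset ℕ) (m j : ℕ) :
    (PF_B T m j).comp (Polynomial.X + Polynomial.C (j:ℚ)) = trunc m (I T m j) := by
  unfold PF_B
  rw [Polynomial.sum_comp]
  simp only [Polynomial.mul_comp, Polynomial.C_comp, Polynomial.pow_comp, Polynomial.sub_comp,
    Polynomial.X_comp, add_sub_cancel_right]
  ext d
  rw [Polynomial.finsetSum_coeff, PowerSeries.coeff_trunc]
  simp only [Polynomial.coeff_C_mul, Polynomial.coeff_X_pow]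
  simp only [mul_ite, mul_one, mul_zero]
  rw [Finset.sum_ite_eq]
  simp

lemma PF_Qcomp (T : Finset ℕ) (m j : ℕ) :
    (((PF_Q T m j).comp (Polynomial.X + Polynomial.C (j:ℚ)) : Polynomial ℚ) : PowerSeries ℚ) *
      I T m j = 1 := by
  unfold PF_Q I
  rw [Polynomial.prod_comp]
  rw [← Polynomial.coeToPowerSeries.ringHom_apply, map_prod, ← Finset.prod_mul_distrib]
  refine Finset.prod_eq_one ?_
  intro i hi
  have hij : i ≠ j := (Finset.mem_erase.mp hi).1
  have hd : ((j:ℤ) - (i:ℤ)) ≠ 0 := by omega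
  rw [Polynomial.pow_comp, map_pow, ← mul_pow]
  have h1 : Polynomial.coeToPowerSeries.ringHom
      ((Polynomial.X - Polynomial.C (i:ℚ)).comp (Polynomial.X + Polynomial.C (j:ℚ))) =
      PowerSeries.C ((((j:ℤ) - (i:ℤ) : ℤ)) : ℚ) + PowerSeries.X := by
    rw [Polynomial.sub_comp, Polynomial.X_comp, Polynomial.C_comp]
    rw [Polynomial.coeToPowerSeries.ringHom_apply]
    rw [Polynomial.coe_sub, Polynomial.coe_add, Polynomial.coe_X, Polynomial.coe_C,
      Polynomial.coe_C]
    push_cast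
    rw [map_sub]
    ring
  rw [h1, PF_inv _ hd, one_pow]

lemma PF_dvd (T : Finset ℕ) (m j : ℕ) :
    (Polynomial.X - Polynomial.C (j:ℚ)) ^ m ∣ PF_B T m j * PF_Q T m j - 1 := by
  rw [Polynomial.X_sub_C_pow_dvd_iff, Polynomial.X_pow_dvd_iff]
  intro d hd
  rw [Polynomial.sub_comp, Polynomial.mul_comp, PF_Bcomp, Polynomial.one_comp]
  rw [← Polynomial.coeff_coe, Polynomial.coe_sub, Polynomial.coe_mul, Polynomial.coe_one, map_sub]
  have h1 := PF_Qcomp T m j
  have h2 : coeff d (((trunc m (I T m j) : Polynomial ℚ) : PowerSeries ℚ) *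
      (((PF_Q T m j).comp (Polynomial.X + Polynomial.C (j:ℚ)) : Polynomial ℚ) : PowerSeries ℚ)) =
      coeff d (I T m j *
      (((PF_Q T m j).comp (Polynomial.X + Polynomial.C (j:ℚ)) : Polynomial ℚ) : PowerSeries ℚ)) := by
    rw [PowerSeries.coeff_mul, PowerSeries.coeff_mul]
    refine Finset.sum_congr rfl ?_
    intro p hp
    have hp' := Finset.HasAntidiagonal.mem_antidiagonal.mp hp
    rw [Polynomial.coeff_coe, PowerSeries.coeff_trunc, if_pos (by omega)]
  rw [h2, mul_comm, h1, sub_self]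

lemma PF_sum (T : Finset ℕ) (m : ℕ) (hT : T.Nonempty) (hm : 1 ≤ m) :
    ∑ j ∈ T, PF_B T m j * PF_Q T m j = 1 := by
  have hcard : 1 ≤ T.card := hT.card_pos
  have hdv : ∏ j ∈ T, (Polynomial.X - Polynomial.C (j:ℚ)) ^ m ∣
      (∑ j ∈ T, PF_B T m j * PF_Q T m j) - 1 := by
    refine Finset.prod_dvd_of_coprime ?_ ?_
    · intro i _ j _ hij
      refine IsCoprime.pow ?_
      refine Polynomial.isCoprime_X_sub_C_of_isUnit_sub ?_
      rw [isUnit_iff_ne_zero, sub_ne_zero]
      exact_mod_cast hij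
    · intro j hj
      rw [← Finset.add_sum_erase _ _ hj]
      have h1 : PF_B T m j * PF_Q T m j + ∑ x ∈ T.erase j, PF_B T m x * PF_Q T m x - 1 =
        (PF_B T m j * PF_Q T m j - 1) + ∑ x ∈ T.erase j, PF_B T m x * PF_Q T m x := by ring
      rw [h1]
      refine dvd_add (PF_dvd T m j) (Finset.dvd_sum ?_)
      intro i hi
      refine Dvd.dvd.mul_left ?_ _
      unfold PF_Q
      refine Finset.dvd_prod_of_mem (fun i : ℕ => (Polynomial.X - Polynomial.C (i:ℚ)) ^ m) ?_
      exact Finset.mem_erase.mpr ⟨(Finset.mem_erase.mp hi).1.symm, hj⟩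
  have hmon : ∀ i : ℕ, ((Polynomial.X - Polynomial.C (i:ℚ)) ^ m).Monic := fun i =>
    (Polynomial.monic_X_sub_C _).pow m
  have hnd : ∀ S : Finset ℕ, (∏ j ∈ S, (Polynomial.X - Polynomial.C (j:ℚ)) ^ m).natDegree =
      m * S.card := by
    intro S
    rw [Polynomial.natDegree_prod_of_monic _ _ (fun i _ => hmon i)]
    rw [Finset.sum_congr rfl (fun i _ => by
      rw [Polynomial.natDegree_pow, Polynomial.natDegree_X_sub_C, mul_one])]
    rw [Finset.sum_const, smul_eq_mul, mul_comm]
  have hlt : ((∑ j ∈ T, PF_B T m j * PF_Q T m j) - 1).natDegree <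
      (∏ j ∈ T, (Polynomial.X - Polynomial.C (j:ℚ)) ^ m).natDegree := by
    rw [hnd]
    have hpos : 0 < m * T.card := by positivity
    have hle : ((∑ j ∈ T, PF_B T m j * PF_Q T m j) - 1).natDegree ≤ m * T.card - 1 := by
      refine le_trans (Polynomial.natDegree_sub_le _ _) (max_le ?_ (by simp))
      refine Polynomial.natDegree_sum_le_of_forall_le _ _ ?_
      intro j hj
      refine le_trans Polynomial.natDegree_mul_le ?_
      have h1 : (PF_B T m j).natDegree ≤ m - 1 := by
        unfold PF_B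
        refine Polynomial.natDegree_sum_le_of_forall_le _ _ ?_
        intro r hr
        refine le_trans (Polynomial.natDegree_C_mul_le _ _) ?_
        rw [Polynomial.natDegree_pow, Polynomial.natDegree_X_sub_C]
        have := Finset.mem_range.mp hr
        omega
      have h2 : (PF_Q T m j).natDegree = m * (T.card - 1) := by
        unfold PF_Q
        rw [hnd, Finset.card_erase_of_mem hj]
      have h3 : m * T.card = m * (T.card - 1) + m := by
        obtain ⟨c, hc⟩ : ∃ c, T.card = c + 1 := ⟨T.card - 1, by omega⟩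
        rw [hc, Nat.add_sub_cancel]
        ring
      omega
    omega
  have := Polynomial.eq_zero_of_dvd_of_natDegree_lt hdv hlt
  exact sub_eq_zero.mp this

theorem t_PF : S_PF := by
  intro T m hT hm
  have hcard : 1 ≤ T.card := hT.card_pos
  have hinj : Function.Injective (algebraMap (PowerSeries ℚ) (FractionRing (PowerSeries ℚ))) :=
    IsFractionRing.injective _ _
  obtain ⟨φ, hφ⟩ : ∃ φ : PowerSeries ℚ →+* FractionRing (PowerSeries ℚ),
    φ = algebraMap (PowerSeries ℚ) (FractionRing (PowerSeries ℚ)) := ⟨_, rfl⟩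
  rw [← hφ] at hinj
  apply hinj
  obtain ⟨z, hz⟩ : ∃ z, z = φ PowerSeries.X := ⟨_, rfl⟩
  have hz0 : z ≠ 0 := by
    rw [hz]
    intro h
    rw [← map_zero φ] at h
    exact PowerSeries.X_ne_zero (hinj h)
  have hL : ∀ j : ℕ, (1 - (j : FractionRing (PowerSeries ℚ)) * z) * φ (L j) = 1 := by
    intro j
    have := congrArg φ (PF_L j)
    rw [map_mul, map_sub, map_one, map_mul, ← hz] at this
    have h2 : φ (PowerSeries.C (j:ℚ)) = (j : FractionRing (PowerSeries ℚ)) := by
      rw [map_natCast, map_natCast]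
    rw [h2] at this
    exact this
  -- w j = 1 / (y - j), y = 1 / z
  have hw : ∀ j : ℕ, (z⁻¹ - (j : FractionRing (PowerSeries ℚ))) * (z * φ (L j)) = 1 := by
    intro j
    have h1 : (z⁻¹ - (j : FractionRing (PowerSeries ℚ))) * (z * φ (L j)) =
      (z⁻¹ * z - (j : FractionRing (PowerSeries ℚ)) * z) * φ (L j) := by ring
    rw [h1, inv_mul_cancel₀ hz0, hL j]
  -- evaluate the polynomial identity at `z⁻¹`
  have hev := congrArg (Polynomial.eval₂ (φ.comp PowerSeries.C) z⁻¹) (PF_sum T m hT hm)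
  rw [Polynomial.eval₂_finsetSum, Polynomial.eval₂_one] at hev
  simp only [Polynomial.eval₂_mul] at hev
  have hQ : ∀ j, Polynomial.eval₂ (φ.comp PowerSeries.C) z⁻¹ (PF_Q T m j) =
      ∏ i ∈ T.erase j, (z⁻¹ - (i : FractionRing (PowerSeries ℚ))) ^ m := by
    intro j
    unfold PF_Q
    rw [Polynomial.eval₂_finsetProd]
    refine Finset.prod_congr rfl ?_
    intro i _
    rw [Polynomial.eval₂_pow, Polynomial.eval₂_sub, Polynomial.eval₂_X, Polynomial.eval₂_C,
      map_natCast]
  have hB : ∀ j, Polynomial.eval₂ (φ.comp PowerSeries.C) z⁻¹ (PF_B T m j) =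
      ∑ r ∈ range m, φ (PowerSeries.C (coeff r (I T m j))) *
        (z⁻¹ - (j : FractionRing (PowerSeries ℚ))) ^ r := by
    intro j
    unfold PF_B
    rw [Polynomial.eval₂_finsetSum]
    refine Finset.sum_congr rfl ?_
    intro i _
    rw [Polynomial.eval₂_mul, Polynomial.eval₂_pow, Polynomial.eval₂_sub, Polynomial.eval₂_X,
      Polynomial.eval₂_C, Polynomial.eval₂_C, map_natCast, RingHom.comp_apply]
  have hmul := congrArg (fun x => x * ∏ i ∈ T, (z * φ (L i)) ^ m) hev
  simp only [one_mul] at hmul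
  rw [Finset.sum_mul] at hmul
  have hterm : ∀ j ∈ T, Polynomial.eval₂ (φ.comp PowerSeries.C) z⁻¹ (PF_B T m j) *
      Polynomial.eval₂ (φ.comp PowerSeries.C) z⁻¹ (PF_Q T m j) * ∏ i ∈ T, (z * φ (L i)) ^ m =
      z * ∑ s ∈ range m, φ (C (coeff (m - 1 - s) (I T m j)) * X ^ s * (L j) ^ (s + 1)) := by
    intro j hj
    rw [hQ, hB, ← Finset.mul_prod_erase T _ hj]
    have h1 : (∏ i ∈ T.erase j, (z⁻¹ - (i : FractionRing (PowerSeries ℚ))) ^ m) *
        ∏ i ∈ T.erase j, (z * φ (L i)) ^ m = 1 := by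
      rw [← Finset.prod_mul_distrib]
      refine Finset.prod_eq_one ?_
      intro i _
      rw [← mul_pow, hw, one_pow]
    have h2 : ∀ a b c d : FractionRing (PowerSeries ℚ), b * d = 1 → a * b * (c * d) = a * c := by
      intro a b c d h
      have : a * b * (c * d) = a * c * (b * d) := by ring
      rw [this, h, mul_one]
    rw [h2 _ _ _ _ h1, Finset.sum_mul, Finset.mul_sum]
    rw [← Finset.sum_range_reflect]
    refine Finset.sum_congr rfl ?_
    intro s hs
    have hs' := Finset.mem_range.mp hs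
    have h3 : (z * φ (L j)) ^ m = (z * φ (L j)) ^ (m - 1 - s) * (z * φ (L j)) ^ (s + 1) := by
      rw [← pow_add]
      congr 1
      omega
    rw [h3, map_mul, map_mul, map_pow, map_pow, ← hz]
    have h4 : (z⁻¹ - (j : FractionRing (PowerSeries ℚ))) ^ (m - 1 - s) *
        (z * φ (L j)) ^ (m - 1 - s) = 1 := by
      rw [← mul_pow, hw, one_pow]
    calc φ (PowerSeries.C (coeff (m - 1 - s) (I T m j))) *
          (z⁻¹ - (j : FractionRing (PowerSeries ℚ))) ^ (m - 1 - s) *
          ((z * φ (L j)) ^ (m - 1 - s) * (z * φ (L j)) ^ (s + 1))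
        = φ (PowerSeries.C (coeff (m - 1 - s) (I T m j))) *
          ((z⁻¹ - (j : FractionRing (PowerSeries ℚ))) ^ (m - 1 - s) *
          (z * φ (L j)) ^ (m - 1 - s)) * (z * φ (L j)) ^ (s + 1) := by ring
      _ = z * (φ (PowerSeries.C (coeff (m - 1 - s) (I T m j))) * z ^ s * φ (L j) ^ (s + 1)) := by
          rw [h4]; ring
  rw [Finset.sum_congr rfl hterm, ← Finset.mul_sum] at hmul
  have hr : ∏ i ∈ T, (z * φ (L i)) ^ m = z * φ (X ^ (m * T.card - 1) * ∏ j ∈ T, (L j) ^ m) := by
    rw [map_mul, map_pow, map_prod, ← hz, ← mul_assoc, ← pow_succ']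
    have h1 : m * T.card - 1 + 1 = m * T.card := by
      have : 0 < m * T.card := by positivity
      omega
    rw [h1]
    simp only [mul_pow, map_pow]
    rw [Finset.prod_mul_distrib, Finset.prod_const, ← pow_mul]
  rw [hr] at hmul
  have := mul_left_cancel₀ hz0 hmul
  rw [← this, map_sum]
  refine Finset.sum_congr rfl ?_
  intro j _
  rw [map_sum]

end Pool.Agent.H771R3.EN
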