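import Pool.Agent.H771R3.EN.Defs

/-! Task PIG: many pairs with the same difference. -/

namespace Pool.Agent.H771R3.EN

theorem PIG_aux (S : Finset ℕ) (W : ℕ) (hS : S ⊆ Finset.range W) :
    S.offDiag.card ≤ ∑ d ∈ Finset.Ico 1 W, 2 * (S.filter (fun j => j + d ∈ S)).card := by
  have hsub : S.offDiag ⊆ (Finset.Ico 1 W).biUnion fun d =>
      (S.filter (fun j => j + d ∈ S)).image (fun j => (j, j + d)) ∪
        (S.filter (fun j => j + d ∈ S)).image (fun j => (j + d, j)) := by
    rintro ⟨x, y⟩ hxy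
    rw [Finset.mem_offDiag] at hxy
    obtain ⟨hx, hy, hne⟩ := hxy
    have hxW : x < W := Finset.mem_range.1 (hS hx)
    have hyW : y < W := Finset.mem_range.1 (hS hy)
    rw [Finset.mem_biUnion]
    rcases lt_or_gt_of_ne hne with hlt | hlt
    · have he : x + (y - x) = y := by omega
      refine ⟨y - x, Finset.mem_Ico.2 ⟨by omega, by omega⟩, Finset.mem_union_left _ ?_⟩
      refine Finset.mem_image.2 ⟨x, Finset.mem_filter.2 ⟨hx, ?_⟩, ?_⟩
      · rwa [he]
      · rw [he]
    · have he : y + (x - y) = x := by omega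
      refine ⟨x - y, Finset.mem_Ico.2 ⟨by omega, by omega⟩, Finset.mem_union_right _ ?_⟩
      refine Finset.mem_image.2 ⟨y, Finset.mem_filter.2 ⟨hy, ?_⟩, ?_⟩
      · rwa [he]
      · rw [he]
  refine (Finset.card_le_card hsub).trans (Finset.card_biUnion_le.trans
    (Finset.sum_le_sum fun d _ => (Finset.card_union_le _ _).trans ?_))
  have h1 := Finset.card_image_le (s := S.filter (fun j => j + d ∈ S))
    (f := fun j => (j, j + d))
  have h2 := Finset.card_image_le (s := S.filter (fun j => j + d ∈ S))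
    (f := fun j => (j + d, j))
  omega

theorem t_PIG : S_PIG := by
  intro S W t hS h
  by_contra hcon
  have hP : ∀ d ∈ Finset.Ico 1 W, 2 * (S.filter (fun j => j + d ∈ S)).card ≤ 2 * t := by
    intro d hd
    obtain ⟨h1, h2⟩ := Finset.mem_Ico.1 hd
    by_contra hlt
    exact hcon ⟨d, h1, h2, by omega⟩
  have hcard : S.offDiag.card = S.card * (S.card - 1) := by
    rw [Finset.offDiag_card, Nat.mul_sub, mul_one]
  have h1 := (PIG_aux S W hS).trans (Finset.sum_le_sum hP)
  rw [Finset.sum_const, Nat.card_Ico, smul_eq_mul, hcard] at h1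
  have h2 : (W - 1) * (2 * t) ≤ W * (2 * t) := Nat.mul_le_mul_right _ (Nat.sub_le _ _)
  have h3 : W * (2 * t) = 2 * t * W := mul_comm _ _
  omega

end Pool.Agent.H771R3.EN
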