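import Pool.Agent.H771R3.EN.Defs

/-!
# Size of the value of the form
-/

namespace Pool.Agent.H771R3.EN

open Finset PowerSeries

/-- nonnegative and dominated -/
def PRO_le (F G : PowerSeries ℚ) : Prop := ∀ r, 0 ≤ coeff r F ∧ coeff r F ≤ coeff r G

theorem PRO_le.mul {F G F' G' : PowerSeries ℚ} (h : PRO_le F G) (h' : PRO_le F' G') :
    PRO_le (F * F') (G * G') := by
  intro r
  rw [coeff_mul, coeff_mul]
  constructor
  · exact Finset.sum_nonneg (fun p _ => mul_nonneg (h p.1).1 (h' p.2).1)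
  · exact Finset.sum_le_sum (fun p _ => mul_le_mul (h p.1).2 (h' p.2).2 (h' p.2).1
      ((h p.1).1.trans (h p.1).2))

theorem PRO_le_one : PRO_le 1 1 := by
  intro r
  rw [coeff_one]
  split_ifs <;> simp

theorem PRO_le.pow {F G : PowerSeries ℚ} (h : PRO_le F G) (m : ℕ) : PRO_le (F ^ m) (G ^ m) := by
  induction m with
  | zero => simpa using PRO_le_one
  | succ m ih =>
    rw [pow_succ, pow_succ]
    exact ih.mul h

theorem PRO_le_L {j W : ℕ} (h : j ≤ W) : PRO_le (L j) (L W) := by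
  intro r
  rw [L, L, coeff_mk, coeff_mk]
  refine ⟨by positivity, ?_⟩
  have : (j : ℚ) ≤ W := by exact_mod_cast h
  exact pow_le_pow_left₀ (by positivity) this r

theorem PRO_le_prod (T : Finset ℕ) (m W : ℕ) (h : ∀ j ∈ T, j ≤ W) :
    PRO_le (∏ j ∈ T, (L j) ^ m) ((L W) ^ (m * T.card)) := by
  induction T using Finset.induction_on with
  | empty => simpa using PRO_le_one
  | @insert a T ha ih =>
    rw [Finset.prod_insert ha, Finset.card_insert_of_notMem ha, mul_add, mul_one, pow_add,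
      mul_comm ((L W) ^ (m * T.card))]
    exact ((PRO_le_L (h a (Finset.mem_insert_self a T))).pow m).mul
      (ih (fun j hj => h j (Finset.mem_insert_of_mem hj)))

theorem PRO_L (j : ℕ) : L j = rescale (j : ℚ) (PowerSeries.mk 1) := by
  ext n
  rw [coeff_rescale, L, coeff_mk, coeff_mk]
  simp

theorem PRO_coeff (j s n : ℕ) :
    coeff n ((L j) ^ (s + 1)) = ((s + n).choose s : ℚ) * (j : ℚ) ^ n := by
  rw [PRO_L, ← map_pow, coeff_rescale, PowerSeries.mk_one_pow_eq_mk_choose_add, coeff_mk]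
  ring

theorem PRO_sum (x : ℝ) : HasSum (fun n : ℕ => x ^ n / (n.factorial : ℝ)) (Real.exp x) := by
  rw [Real.exp_eq_exp_ℝ]
  exact NormedSpace.expSeries_div_hasSum_exp x

theorem PRO_coeff_zero (T : Finset ℕ) (m : ℕ) : coeff 0 (∏ j ∈ T, (L j) ^ m) = 1 := by
  rw [coeff_zero_eq_constantCoeff_apply, map_prod]
  apply Finset.prod_eq_one
  intro j _
  rw [map_pow, ← coeff_zero_eq_constantCoeff_apply, L, coeff_mk]
  simp

theorem t_PRO : S_PRO := by
  intro T m W hT hm hW
  have hM : 1 ≤ m * T.card := Nat.mul_pos hm hT.card_pos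
  obtain ⟨s, hs⟩ : ∃ s, m * T.card = s + 1 := ⟨m * T.card - 1, by omega⟩
  have hs' : m * T.card - 1 = s := by omega
  rw [hs']
  set F : PowerSeries ℚ := ∏ j ∈ T, (L j) ^ m with hF
  have hdom : PRO_le F ((L W) ^ (s + 1)) := by
    rw [← hs]
    exact PRO_le_prod T m W hW
  set f : ℕ → ℝ := fun k => ((coeff k (X ^ s * F) : ℚ) : ℝ) / (k.factorial : ℝ) with hf
  have h0 : ∑ k ∈ range s, f k = 0 := by
    apply Finset.sum_eq_zero
    intro k hk
    rw [Finset.mem_range] at hk
    rw [hf]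
    simp only
    rw [coeff_X_pow_mul', if_neg (by omega)]
    simp
  have h1 : ∀ n : ℕ, f (n + s) = ((coeff n F : ℚ) : ℝ) / ((n + s).factorial : ℝ) := by
    intro n
    rw [hf]
    simp only
    rw [coeff_X_pow_mul]
  have hnn : ∀ n : ℕ, 0 ≤ f (n + s) := by
    intro n
    rw [h1]
    have : (0 : ℝ) ≤ ((coeff n F : ℚ) : ℝ) := by exact_mod_cast (hdom n).1
    positivity
  have hup : ∀ n : ℕ, f (n + s) ≤ (W : ℝ) ^ n / (n.factorial : ℝ) / (s.factorial : ℝ) := by
    intro n
    rw [h1]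
    have h3 : ((coeff n F : ℚ) : ℝ) ≤ ((s + n).choose s : ℝ) * (W : ℝ) ^ n := by
      have := (hdom n).2
      rw [PRO_coeff] at this
      exact_mod_cast this
    have h2 : ((s + n).choose s : ℝ) * (s.factorial : ℝ) * (n.factorial : ℝ) =
        ((s + n).factorial : ℝ) := by
      have := Nat.choose_mul_factorial_mul_factorial (Nat.le_add_right s n)
      rw [Nat.add_sub_cancel_left] at this
      exact_mod_cast this
    have hs0 : (0 : ℝ) < (s.factorial : ℝ) := by positivity
    have hn0 : (0 : ℝ) < (n.factorial : ℝ) := by positivity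
    rw [add_comm n s, div_div, div_le_div_iff₀ (by positivity) (by positivity), ← h2]
    calc ((coeff n F : ℚ) : ℝ) * ((n.factorial : ℝ) * (s.factorial : ℝ))
        ≤ (((s + n).choose s : ℝ) * (W : ℝ) ^ n) * ((n.factorial : ℝ) * (s.factorial : ℝ)) :=
          mul_le_mul_of_nonneg_right h3 (by positivity)
      _ = _ := by ring
  have hg : HasSum (fun n : ℕ => (W : ℝ) ^ n / (n.factorial : ℝ) / (s.factorial : ℝ))
      (Real.exp W / (s.factorial : ℝ)) := (PRO_sum W).div_const _
  have hsum : Summable (fun n : ℕ => f (n + s)) := Summable.of_nonneg_of_le hnn hup hg.summable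
  refine ⟨∑' n, f (n + s), ?_, ?_, ?_⟩
  · have h3 := (hasSum_nat_add_iff s).1 hsum.hasSum
    rw [h0, add_zero] at h3
    exact h3
  · have h3 := hsum.le_tsum 0 (fun n _ => hnn n)
    rw [h1 0, hF, PRO_coeff_zero, zero_add] at h3
    rw [hF] at *
    simpa using h3
  · exact hasSum_le hup hsum.hasSum hg

end Pool.Agent.H771R3.EN
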