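import Pool.Agent.H771R3.EN.Defs

/-! SIZ: size of the coefficients. -/

namespace Pool.Agent.H771R3.EN

open Finset PowerSeries

theorem SIZ_invS (d : ℤ) (hd : d ≠ 0) (b : ℕ) : |coeff b (invS d)| ≤ 1 := by
  unfold invS
  rw [coeff_mk, abs_div, abs_pow, abs_neg, abs_one, one_pow, abs_pow]
  have h1 : (1 : ℚ) ≤ |(d : ℚ)| := by
    have h2 : (1 : ℤ) ≤ |d| := Int.one_le_abs hd
    exact_mod_cast h2
  have h3 : (1 : ℚ) ≤ |(d : ℚ)| ^ (b + 1) := one_le_pow₀ h1
  rw [div_le_one (by linarith)]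
  exact h3

theorem SIZ_geom (r : ℕ) : ∑ i ∈ range (r + 1), (2 : ℚ) ^ i ≤ 2 * 2 ^ r := by
  have h : ∑ i ∈ range (r + 1), (2 : ℚ) ^ i = 2 * 2 ^ r - 1 := by
    induction r with
    | zero => norm_num
    | succ r ih =>
      rw [sum_range_succ, ih, pow_succ]
      ring
  rw [h]
  linarith

theorem SIZ_mul (F : PowerSeries ℚ) (K : ℚ) (hK : 0 ≤ K) (h : ∀ r, |coeff r F| ≤ K * 2 ^ r)
    (d : ℤ) (hd : d ≠ 0) (r : ℕ) : |coeff r (F * invS d)| ≤ (2 * K) * 2 ^ r := by
  rw [coeff_mul]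
  calc |∑ p ∈ antidiagonal r, coeff p.1 F * coeff p.2 (invS d)|
      ≤ ∑ p ∈ antidiagonal r, |coeff p.1 F * coeff p.2 (invS d)| := abs_sum_le_sum_abs _ _
    _ ≤ ∑ p ∈ antidiagonal r, K * 2 ^ p.1 := by
        refine sum_le_sum fun p _ => ?_
        rw [abs_mul]
        calc |coeff p.1 F| * |coeff p.2 (invS d)| ≤ (K * 2 ^ p.1) * 1 :=
              mul_le_mul (h p.1) (SIZ_invS d hd p.2) (abs_nonneg _) (by positivity)
          _ = K * 2 ^ p.1 := mul_one _
    _ = K * ∑ i ∈ range (r + 1), (2 : ℚ) ^ i := by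
        rw [Finset.Nat.sum_antidiagonal_eq_sum_range_succ_mk, mul_sum]
    _ ≤ K * (2 * 2 ^ r) := mul_le_mul_of_nonneg_left (SIZ_geom r) hK
    _ = (2 * K) * 2 ^ r := by ring

theorem SIZ_pow (F : PowerSeries ℚ) (K : ℚ) (hK : 0 ≤ K) (h : ∀ r, |coeff r F| ≤ K * 2 ^ r)
    (d : ℤ) (hd : d ≠ 0) (m : ℕ) : ∀ r, |coeff r (F * invS d ^ m)| ≤ (2 ^ m * K) * 2 ^ r := by
  induction m with
  | zero =>
    intro r
    rw [pow_zero, mul_one, pow_zero, one_mul]
    exact h r
  | succ m ih =>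
    intro r
    have h1 := SIZ_mul (F * invS d ^ m) (2 ^ m * K) (by positivity) ih d hd r
    rw [pow_succ, ← mul_assoc]
    refine h1.trans (le_of_eq ?_)
    rw [pow_succ]
    ring

theorem SIZ_prod (j m : ℕ) (s : Finset ℕ) (hs : j ∉ s) (r : ℕ) :
    |coeff r (∏ i ∈ s, (invS ((j : ℤ) - (i : ℤ))) ^ m)| ≤ (2 : ℚ) ^ (m * s.card) * 2 ^ r := by
  induction s using Finset.induction_on generalizing r with
  | empty =>
    rw [prod_empty, card_empty, mul_zero, pow_zero, one_mul, coeff_one]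
    have h1 : (1 : ℚ) ≤ 2 ^ r := one_le_pow₀ (by norm_num)
    split_ifs
    · rw [abs_one]
      exact h1
    · rw [abs_zero]
      linarith
  | insert i s hi ih =>
    have hji : ((j : ℤ) - (i : ℤ)) ≠ 0 := by
      intro h0
      apply hs
      have : j = i := by omega
      rw [this]
      exact mem_insert_self i s
    have hjs : j ∉ s := fun h => hs (mem_insert_of_mem h)
    rw [prod_insert hi, mul_comm, card_insert_of_notMem hi]
    refine (SIZ_pow _ ((2 : ℚ) ^ (m * s.card)) (by positivity) (fun r => ih hjs r) _ hji m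
      r).trans (le_of_eq ?_)
    rw [mul_add, mul_one, pow_add]
    ring

theorem t_SIZ : S_SIZ := by
  intro T m j hj r
  have h := SIZ_prod j m (T.erase j) (notMem_erase j T) r
  rw [card_erase_of_mem hj] at h
  exact h

end Pool.Agent.H771R3.EN
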