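import Mathlib
import Pool.Agent.H771R3.EN.Defs

/-! Size of the product of the differences. -/

namespace Pool.Agent.H771R3.EN

open Finset

theorem vb_count (T : Finset ℕ) :
    2 * ∑ i ∈ T, (T.filter (fun l => i < l)).card = T.card * (T.card - 1) := by
  have h1 : ∑ i ∈ T, (T.filter (fun l => i < l)).card =
      ∑ i ∈ T, ∑ l ∈ T, (if i < l then 1 else 0) := by
    apply Finset.sum_congr rfl
    intro i _
    rw [Finset.card_filter]
  have h2 : ∑ i ∈ T, (T.filter (fun l => i < l)).card =
      ∑ i ∈ T, ∑ l ∈ T, (if l < i then 1 else 0) := by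
    rw [h1, Finset.sum_comm]
  have h3 : 2 * ∑ i ∈ T, (T.filter (fun l => i < l)).card =
      ∑ i ∈ T, ∑ l ∈ T, (if l ≠ i then 1 else 0) := by
    rw [two_mul]
    nth_rewrite 1 [h1]
    rw [h2, ← Finset.sum_add_distrib]
    apply Finset.sum_congr rfl
    intro i _
    rw [← Finset.sum_add_distrib]
    apply Finset.sum_congr rfl
    intro l _
    split_ifs <;> omega
  rw [h3]
  have h4 : ∀ i ∈ T, ∑ l ∈ T, (if l ≠ i then 1 else 0) = T.card - 1 := by
    intro i hi
    rw [← Finset.card_filter, Finset.filter_ne', Finset.card_erase_of_mem hi]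
  rw [Finset.sum_congr rfl h4, Finset.sum_const, smul_eq_mul]

theorem t_VB : S_VB := by
  intro T W t hT hW hc
  have h1 : V T ≤ W ^ (∑ i ∈ T, (T.filter (fun l => i < l)).card) := by
    unfold V
    rw [← Finset.prod_pow_eq_pow_sum]
    apply Finset.prod_le_prod
    · intro i _
      exact Nat.zero_le _
    · intro i _
      rw [← Finset.prod_const]
      apply Finset.prod_le_prod
      · intro l _
        exact Nat.zero_le _
      · intro l hl
        have := hT l (Finset.mem_filter.1 hl).1
        omega
  have h2 := vb_count T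
  rw [hc, Nat.add_sub_cancel] at h2
  calc (V T) ^ 2 ≤ (W ^ (∑ i ∈ T, (T.filter (fun l => i < l)).card)) ^ 2 :=
        Nat.pow_le_pow_left h1 2
    _ = W ^ (t * (t + 1)) := by
        rw [← pow_mul]
        congr 1
        rw [mul_comm, h2, mul_comm]

end Pool.Agent.H771R3.EN
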