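import Pool.Agent.H771R3.EN.Defs

/-!
# WEYL: mean square of the Weyl sums (helper403)
-/

namespace Pool.Agent.H771R3.EN

open Finset

/-- `|e(y) - 1|` is at least four times the distance of `y` to the integers -/
lemma weyl_low (y ψ : ℝ) (h : ∀ b : ℤ, ψ ≤ |y - b|) :
    4 * ψ ≤ ‖Complex.exp (2 * Real.pi * Complex.I * (y : ℂ)) - 1‖ := by
  have h1 := h (round y)
  have h2 : |y - round y| ≤ 1 / 2 := abs_sub_round y
  set u : ℝ := y - round y with hu
  have e1 : Complex.exp (2 * Real.pi * Complex.I * (y : ℂ)) =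
      Complex.exp (Complex.I * ((2 * Real.pi * u : ℝ) : ℂ)) := by
    have e2 : (2 * Real.pi * Complex.I * (y : ℂ)) =
        Complex.I * ((2 * Real.pi * u : ℝ) : ℂ) + (round y : ℤ) * (2 * Real.pi * Complex.I) := by
      rw [hu]
      push_cast
      ring
    rw [e2, Complex.exp_add, Complex.exp_int_mul_two_pi_mul_I, mul_one]
  rw [e1, Complex.norm_exp_I_mul_ofReal_sub_one]
  have e3 : 2 * Real.pi * u / 2 = Real.pi * u := by ring
  have hpi := Real.pi_pos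
  have e4 : |Real.pi * u| ≤ Real.pi / 2 := by
    rw [abs_mul, abs_of_pos hpi]
    calc Real.pi * |u| ≤ Real.pi * (1 / 2) := mul_le_mul_of_nonneg_left h2 hpi.le
      _ = Real.pi / 2 := by ring
  have e5 := Real.mul_abs_le_abs_sin e4
  rw [e3, Real.norm_eq_abs, abs_mul, abs_of_pos (by norm_num : (0:ℝ) < 2)]
  rw [abs_mul, abs_of_pos hpi] at e5
  have e6 : 2 / Real.pi * (Real.pi * |u|) = 2 * |u| := by field_simp
  rw [e6] at e5
  linarith

lemma weyl_geom (q : ℂ) (H : ℕ) : (∑ h ∈ Icc 1 H, q ^ h) * (q - 1) = q ^ (H + 1) - q := by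
  induction H with
  | zero => simp
  | succ n ih =>
    rw [Finset.sum_Icc_succ_top (by omega), add_mul, ih]
    ring

lemma weyl_one (y : ℝ) : ‖Complex.exp (2 * Real.pi * Complex.I * (y : ℂ))‖ = 1 := by
  have : (2 * Real.pi * Complex.I * (y : ℂ)) = ((2 * Real.pi * y : ℝ) : ℂ) * Complex.I := by
    push_cast; ring
  rw [this, Complex.norm_exp_ofReal_mul_I]

lemma weyl_sum_triv (y : ℝ) (H : ℕ) :
    ‖∑ h ∈ Icc 1 H, Complex.exp (2 * Real.pi * Complex.I * (y : ℂ)) ^ h‖ ≤ H := by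
  refine (norm_sum_le _ _).trans ?_
  simp only [norm_pow, weyl_one, one_pow, sum_const, Nat.card_Icc, Nat.add_sub_cancel,
    nsmul_eq_mul, mul_one, le_refl]

lemma weyl_sum_good (y ψ : ℝ) (H : ℕ) (hψ : 0 < ψ) (h : ∀ b : ℤ, ψ ≤ |y - b|) :
    ‖∑ h ∈ Icc 1 H, Complex.exp (2 * Real.pi * Complex.I * (y : ℂ)) ^ h‖ ≤ 1 / (2 * ψ) := by
  have h1 := weyl_low y ψ h
  set q := Complex.exp (2 * Real.pi * Complex.I * (y : ℂ)) with hq
  have hq1 : ‖q‖ = 1 := weyl_one y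
  have h2 := congrArg norm (weyl_geom q H)
  rw [norm_mul] at h2
  have h3 : ‖q ^ (H + 1) - q‖ ≤ 2 := by
    refine (norm_sub_le _ _).trans ?_
    rw [norm_pow, hq1, one_pow]
    norm_num
  rw [← h2] at h3
  rw [le_div_iff₀ (by positivity)]
  have h4 : ‖∑ h ∈ Icc 1 H, q ^ h‖ * (4 * ψ) ≤ ‖∑ h ∈ Icc 1 H, q ^ h‖ * ‖q - 1‖ :=
    mul_le_mul_of_nonneg_left h1 (norm_nonneg _)
  linarith

/-- expansion of the mean square -/
lemma weyl_expand (x : ℕ → ℝ) (N H : ℕ) :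
    ∑ h ∈ Icc 1 H, ‖∑ n ∈ Icc 1 N,
      Complex.exp (2 * Real.pi * Complex.I * (h : ℂ) * (x n : ℂ))‖ ^ 2 ≤
    ∑ m ∈ Icc 1 N, ∑ n ∈ Icc 1 N,
      ‖∑ h ∈ Icc 1 H, Complex.exp (2 * Real.pi * Complex.I * ((x n - x m : ℝ) : ℂ)) ^ h‖ := by
  have h1 : ∀ h : ℕ, ((‖∑ n ∈ Icc 1 N,
      Complex.exp (2 * Real.pi * Complex.I * (h : ℂ) * (x n : ℂ))‖ ^ 2 : ℝ) : ℂ) =
      ∑ m ∈ Icc 1 N, ∑ n ∈ Icc 1 N,
        Complex.exp (2 * Real.pi * Complex.I * ((x n - x m : ℝ) : ℂ)) ^ h := by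
    intro h
    rw [Complex.ofReal_pow, ← Complex.conj_mul', map_sum, Finset.sum_mul_sum]
    refine sum_congr rfl fun m _ => sum_congr rfl fun n _ => ?_
    rw [← Complex.exp_conj, ← Complex.exp_add, ← Complex.exp_nat_mul]
    congr 1
    simp only [map_mul, Complex.conj_ofReal, Complex.conj_I, map_natCast, map_ofNat]
    push_cast
    ring
  have h2 : ((∑ h ∈ Icc 1 H, ‖∑ n ∈ Icc 1 N,
      Complex.exp (2 * Real.pi * Complex.I * (h : ℂ) * (x n : ℂ))‖ ^ 2 : ℝ) : ℂ) =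
      ∑ m ∈ Icc 1 N, ∑ n ∈ Icc 1 N, ∑ h ∈ Icc 1 H,
        Complex.exp (2 * Real.pi * Complex.I * ((x n - x m : ℝ) : ℂ)) ^ h := by
    rw [Complex.ofReal_sum, sum_congr rfl fun h _ => h1 h, sum_comm]
    exact sum_congr rfl fun m _ => sum_comm
  have h3 := congrArg norm h2
  rw [Complex.norm_real, Real.norm_of_nonneg (sum_nonneg fun h _ => by positivity)] at h3
  rw [h3]
  refine (norm_sum_le _ _).trans (sum_le_sum fun m _ => ?_)
  exact norm_sum_le _ _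

open Classical in
theorem t_WEYL (h : S_ARC) : S_WEYL := by
  obtain ⟨A, hA, hArc⟩ := h
  refine ⟨2 * A + 1, by linarith, ?_⟩
  intro δ hδ hδ1 N hN H hH
  have hN1 : (1:ℝ) ≤ N := by exact_mod_cast hN
  have hN0 : (0:ℝ) < N := by linarith
  have hH0 : (0:ℝ) < H := lt_of_lt_of_le (Real.exp_pos _) hH
  refine (weyl_expand (fun n => Real.exp (n : ℝ)) N H).trans ?_
  set ψ : ℝ := Real.exp (-(δ * N / 2)) with hψ
  have hψ0 : 0 < ψ := Real.exp_pos _
  -- one row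
  have hrow : ∀ m ∈ Icc 1 N, ∑ n ∈ Icc 1 N, ‖∑ h ∈ Icc 1 H, Complex.exp (2 * Real.pi * Complex.I *
      ((Real.exp (n : ℝ) - Real.exp (m : ℝ) : ℝ) : ℂ)) ^ h‖ ≤
      (2 * A / δ * (N : ℝ) ^ (1 - δ ^ 2 / 1600)) * H + N * (1 / (2 * ψ)) := by
    intro m _
    set B := (Icc 1 N).filter (fun n : ℕ => Near (Real.exp (m : ℝ)) ψ (Real.exp (n : ℝ))) with hB
    have hBcard : (B.card : ℝ) ≤ 2 * A / δ * (N : ℝ) ^ (1 - δ ^ 2 / 1600) := by
      have h1 := hArc (δ / 2) (by linarith) (by linarith) N hN (Real.exp (m : ℝ))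
      have h2 : B ⊆ (Icc 1 N).filter (fun n : ℕ =>
          Near (Real.exp (m : ℝ)) (Real.exp (-(δ / 2 * (n : ℝ)))) (Real.exp (n : ℝ))) := by
        intro n hn
        rw [hB, mem_filter] at hn
        rw [mem_filter]
        obtain ⟨hn1, b, hb⟩ := hn
        refine ⟨hn1, b, lt_of_lt_of_le hb ?_⟩
        rw [hψ]
        apply Real.exp_le_exp.2
        have hnN : (n : ℝ) ≤ N := by exact_mod_cast (mem_Icc.1 hn1).2
        nlinarith
      have h3 : (B.card : ℝ) ≤ (((Icc 1 N).filter (fun n : ℕ =>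
          Near (Real.exp (m : ℝ)) (Real.exp (-(δ / 2 * (n : ℝ)))) (Real.exp (n : ℝ)))).card : ℝ) :=
        by exact_mod_cast card_le_card h2
      refine h3.trans (h1.trans (le_of_eq ?_))
      have e1 : A / (δ / 2) = 2 * A / δ := by field_simp
      have e2 : (δ / 2) ^ 2 / 400 = δ ^ 2 / 1600 := by ring
      rw [e1, e2]
    have hterm : ∀ n ∈ Icc 1 N, ‖∑ h ∈ Icc 1 H, Complex.exp (2 * Real.pi * Complex.I *
        ((Real.exp (n : ℝ) - Real.exp (m : ℝ) : ℝ) : ℂ)) ^ h‖ ≤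
        (if n ∈ B then (H : ℝ) else 0) + 1 / (2 * ψ) := by
      intro n hn
      by_cases hnB : n ∈ B
      · rw [if_pos hnB]
        have h1 := weyl_sum_triv (Real.exp (n : ℝ) - Real.exp (m : ℝ)) H
        have h2 : 0 ≤ 1 / (2 * ψ) := by positivity
        linarith
      · rw [if_neg hnB, zero_add]
        refine weyl_sum_good _ ψ H hψ0 fun b => ?_
        by_contra hcon
        push Not at hcon
        apply hnB
        rw [hB, mem_filter]
        exact ⟨hn, b, hcon⟩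
    refine (sum_le_sum hterm).trans ?_
    rw [sum_add_distrib, sum_const, Nat.card_Icc, Nat.add_sub_cancel, nsmul_eq_mul]
    refine add_le_add_left ?_ _
    rw [← sum_filter]
    have h1 : (Icc 1 N).filter (fun n => n ∈ B) = B := by
      ext n
      simp only [mem_filter, hB]
      tauto
    rw [h1, sum_const, nsmul_eq_mul]
    exact mul_le_mul_of_nonneg_right hBcard hH0.le
  refine (sum_le_sum hrow).trans ?_
  rw [sum_const, Nat.card_Icc, Nat.add_sub_cancel, nsmul_eq_mul]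
  -- the good terms
  have hgood : 1 / (2 * ψ) ≤ H / (δ * N) := by
    have e1 : 1 / ψ = Real.exp (δ * N / 2) := by
      rw [hψ, Real.exp_neg, one_div, inv_inv]
    have e2 : δ * N / 2 ≤ Real.exp (δ * N / 2) := by
      have := Real.add_one_le_exp (δ * N / 2)
      linarith
    have e3 : Real.exp (δ * N / 2) * Real.exp (δ * N / 2) ≤ H := by
      rw [← Real.exp_add]
      have : δ * N / 2 + δ * N / 2 = δ * N := by ring
      rw [this]
      exact hH
    have e4 : 0 < δ * N := by positivity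
    rw [le_div_iff₀ e4]
    have e5 : 1 / (2 * ψ) = Real.exp (δ * N / 2) / 2 := by
      rw [← e1]
      field_simp
    rw [e5]
    have e6 : Real.exp (δ * N / 2) / 2 * (δ * N) = Real.exp (δ * N / 2) * (δ * N / 2) := by ring
    rw [e6]
    exact (mul_le_mul_of_nonneg_left e2 (Real.exp_pos _).le).trans e3
  have hpow : (N : ℝ) * (N : ℝ) ^ (1 - δ ^ 2 / 1600) = (N : ℝ) ^ (2 - δ ^ 2 / 1600) := by
    have e1 : (2 - δ ^ 2 / 1600 : ℝ) = 1 + (1 - δ ^ 2 / 1600) := by ring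
    rw [e1, Real.rpow_add hN0, Real.rpow_one]
  have hpow1 : (N : ℝ) ≤ (N : ℝ) ^ (2 - δ ^ 2 / 1600) := by
    have e1 : (N : ℝ) ^ (1:ℝ) ≤ (N : ℝ) ^ (2 - δ ^ 2 / 1600) := by
      apply Real.rpow_le_rpow_of_exponent_le hN1
      nlinarith
    rwa [Real.rpow_one] at e1
  have e1 : (N : ℝ) * ((2 * A / δ * (N : ℝ) ^ (1 - δ ^ 2 / 1600)) * H + N * (1 / (2 * ψ))) =
      2 * A / δ * H * (N : ℝ) ^ (2 - δ ^ 2 / 1600) + N * (N * (1 / (2 * ψ))) := by
    rw [← hpow]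
    ring
  have e2 : (N : ℝ) * (N * (1 / (2 * ψ))) ≤ 1 / δ * H * (N : ℝ) ^ (2 - δ ^ 2 / 1600) := by
    calc (N : ℝ) * (N * (1 / (2 * ψ))) ≤ N * (N * (H / (δ * N))) :=
          mul_le_mul_of_nonneg_left (mul_le_mul_of_nonneg_left hgood hN0.le) hN0.le
      _ = 1 / δ * H * N := by field_simp
      _ ≤ 1 / δ * H * (N : ℝ) ^ (2 - δ ^ 2 / 1600) :=
          mul_le_mul_of_nonneg_left hpow1 (by positivity)
  rw [e1]
  have e3 : (2 * A + 1) / δ * H * (N : ℝ) ^ (2 - δ ^ 2 / 1600) =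
      2 * A / δ * H * (N : ℝ) ^ (2 - δ ^ 2 / 1600) + 1 / δ * H * (N : ℝ) ^ (2 - δ ^ 2 / 1600) := by
    ring
  rw [e3]
  exact add_le_add (le_refl _) e2

end Pool.Agent.H771R3.EN
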