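import Mathlib
import Pool.Agent.H771R3.EN.Defs

/-!
Few near integers in a window (project EN, task WIN).
-/

namespace Pool.Agent.H771R3.EN

open Finset PowerSeries

open Classical in
theorem t_WIN (h1 : S_CON) (h2 : S_VB) (h3 : S_PIG) (h4 : S_PAR) : S_WIN := by
  obtain ⟨n1, h4⟩ := h4
  refine ⟨n1, ?_⟩
  intro n W δ θ hn hδ hδ1 hlog hW hW2
  set S : Finset ℕ := (range W).filter (fun j : ℕ =>
      Near θ (Real.exp (-(δ * ((n : ℝ) + j)))) (Real.exp ((n : ℝ) + j))) with hS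
  by_contra hlt
  rw [not_le] at hlt
  obtain ⟨d, hd1, hdW, hcard⟩ := h3 S W (⌈4 / δ⌉₊) (by rw [hS]; exact filter_subset _ _) hlt
  obtain ⟨T, hTsub, hTcard⟩ := Finset.exists_subset_card_eq hcard
  obtain ⟨m, hm1, hmA, hmB⟩ := h4 n (⌈4 / δ⌉₊) W δ hn hδ hδ1 hlog rfl hW hW2
  have hTS : ∀ j ∈ T, j ∈ S ∧ j + d ∈ S := by
    intro j hj
    have := hTsub hj
    rw [mem_filter] at this
    exact this
  have hTW : ∀ j ∈ T, j ≤ W := by
    intro j hj
    have h := (hTS j hj).1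
    rw [hS, mem_filter, mem_range] at h
    exact h.1.le
  have hne : T.Nonempty := by
    rw [← Finset.card_pos, hTcard]
    omega
  have hVT : (V T : ℝ) ^ (2 * m) ≤ (W : ℝ) ^ (⌈4 / δ⌉₊ * (⌈4 / δ⌉₊ + 1) * m) := by
    have h := h2 T W (⌈4 / δ⌉₊) hTW hW hTcard
    have h' : ((V T) ^ 2) ^ m ≤ (W ^ (⌈4 / δ⌉₊ * (⌈4 / δ⌉₊ + 1))) ^ m :=
      Nat.pow_le_pow_left h m
    rw [← pow_mul, ← pow_mul] at h'
    exact_mod_cast h'
  refine h1 T n d m W (Real.exp (-(δ * n))) hne hm1 hTW hd1 hdW.le ?_ ?_ ?_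
  · intro j hj
    obtain ⟨hj1, hj2⟩ := hTS j hj
    rw [hS, mem_filter] at hj1 hj2
    obtain ⟨b1, hb1⟩ := hj1.2
    obtain ⟨b2, hb2⟩ := hj2.2
    refine ⟨b2 - b1, ?_⟩
    have e1 : Real.exp (-(δ * ((n : ℝ) + j))) ≤ Real.exp (-(δ * n)) := by
      apply Real.exp_le_exp.mpr
      have : 0 ≤ δ * (j : ℝ) := by positivity
      nlinarith
    have e2 : Real.exp (-(δ * ((n : ℝ) + ((j + d : ℕ) : ℝ)))) ≤ Real.exp (-(δ * n)) := by
      apply Real.exp_le_exp.mpr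
      have : 0 ≤ δ * ((j + d : ℕ) : ℝ) := by positivity
      nlinarith
    have e3 : Real.exp ((n : ℝ) + ((j + d : ℕ) : ℝ)) = Real.exp ((n : ℝ) + j + d) := by
      congr 1
      push_cast
      ring
    rw [e3] at hb2
    rw [abs_lt] at hb1 hb2
    rw [abs_le]
    push_cast
    constructor <;> linarith [hb1.1, hb1.2, hb2.1, hb2.2]
  · rw [hTcard]
    refine le_trans ?_ hmA
    apply mul_le_mul_of_nonneg_right _ (by positivity)
    exact mul_le_mul_of_nonneg_left hVT (by positivity)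
  · rw [hTcard]
    have := hmB
    push_cast at this ⊢
    exact this

end Pool.Agent.H771R3.EN
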